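import Pool.Agent.J4.H11.TQ.A1
import Pool.Agent.N145.PL.A1Psef
import Pool.Agent.W602.GT.KPsefS
import Pool.Agent.W619.Y.LRes

/-! Quotients of toric varieties by finite groups: `A¹`-uniruledness and the logarithmic Kodaira
dimension. -/

set_option autoImplicit false
set_option linter.overlappingInstances false
set_option linter.unusedSectionVars false
set_option maxHeartbeats 4000000
set_option synthInstance.maxHeartbeats 400000

open FF IntermediateField Pool.Agent.W619.PQ Pool.Agent.W603.LV Pool.Agent.R885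
  Pool.Agent.W602.GT

namespace Pool.Agent.J4.H11.TQ

/-- The places without centre on the quotient by `G` of the toric variety with the fan of support
`S`. -/
def TBd {k L : Type} [Field k] [Field L] [Algebra k L] {n : ℕ} (G : Subgroup (L ≃ₐ[k] L))
    (x : Fin n → L) (S : Set (Fin n → ℤ)) (v : Place k (fixedField G)) : Prop :=
  ∀ (w : Place k L) (e : ℕ), Over w v e → (fun i => w.ord (x i)) ∉ S

section

variable {k L : Type} [Field k] [CharZero k] [Field L] [Algebra k L] {n : ℕ} {x : Fin n → L}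

theorem tBd_zero (hx0 : ∀ i, x i ≠ 0) (G : Subgroup (L ≃ₐ[k] L)) [Finite G]
    (hG : ∀ g ∈ G, ∀ f ∈ coordRing k x, g f ∈ coordRing k x) (v : Place k (fixedField G)) :
    TBd G x {0} v ↔ QBd G x v := by
  constructor
  · intro h
    by_contra hv
    obtain ⟨w, e, I, hwv, -, -⟩ := exists_inertia G v
    exact h w e hwv (funext fun i => ord_x hx0 G hG hwv hv i)
  · rintro ⟨f, hf, hnf⟩ w e hwv h0
    apply hnf
    rw [← reg_over hwv]
    have h1 : ∀ i, w.ord (x i) = 0 := fun i => congrFun h0 i
    have key : ∀ y ∈ coordRing k x, w.Reg y := by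
      intro y hy
      unfold coordRing at hy
      induction hy using Algebra.adjoin_induction with
      | mem y hy =>
        rcases hy with ⟨i, rfl⟩ | ⟨i, rfl⟩
        · exact Or.inr (h1 i).ge
        · right
          change 0 ≤ w.ord (x i)⁻¹
          rw [w.ord_inv, h1 i, neg_zero]
      | algebraMap c => exact w.reg_const c
      | add a b _ _ ha hb => exact w.reg_add ha hb
      | mul a b _ _ ha hb => exact w.reg_mul ha hb
    exact key _ hf

/-- Toric varieties which are not a torus are `A¹`-uniruled. -/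
theorem a1_toric (hx : AlgebraicIndependent k x)
    (hgen : IntermediateField.adjoin k (Set.range x) = ⊤) {S : Set (Fin n → ℤ)} (h0 : 0 ∈ S)
    (hS : ∀ (m : ℕ) (v : Fin n → ℤ), 0 < m → (m • v ∈ S ↔ v ∈ S)) {v0 : Fin n → ℤ} (hv0 : v0 ∈ S)
    (hne : v0 ≠ 0) :
    Pool.Agent.W619.PL.IsA1Uniruled k L n (fun w => (fun i => w.ord (x i)) ∉ S) := by
  classical
  have hx0 := x_ne hx
  obtain ⟨u', m, huS, hm⟩ : ∃ u' m : Fin n → ℤ, u' ∈ S ∧ m ⬝ᵥ u' = 1 := by
    obtain ⟨d, u', m, hd, hu', hm⟩ := exists_primitive hne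
    rcases lt_or_gt_of_ne hd with hd' | hd'
    · refine ⟨-u', -m, ?_, by rw [neg_dotProduct_neg, hm]⟩
      rw [← hS d.natAbs (-u') (by omega)]
      have : d.natAbs • (-u') = v0 := by
        funext i
        rw [hu' i, Pi.smul_apply, Pi.neg_apply, nsmul_eq_mul, mul_neg, ← neg_mul]
        congr 1
        omega
      rw [this]
      exact hv0
    · refine ⟨u', m, ?_, hm⟩
      rw [← hS d.natAbs u' (by omega)]
      have : d.natAbs • u' = v0 := by
        funext i
        rw [hu' i, Pi.smul_apply, nsmul_eq_mul]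
        congr 1
        omega
      rw [this]
      exact hv0
  obtain ⟨δ, hδ⟩ := exists_delta hx hgen u'
  have ht : Transcendental (F0 k x u' m) (mono x m) := by
    refine F0_trans hm hδ ?_
    rw [hδ, hm, Int.cast_one, one_mul]
    exact mono_ne hx0 m
  have htop := F0_top (k := k) hx0 hgen u' m
  let e1 : RatFunc (F0 k x u' m) ≃ₐ[F0 k x u' m] (F0 k x u' m)⟮mono x m⟯ :=
    RatFunc.algEquivOfTranscendental (mono x m) ht
  let e2 : (F0 k x u' m)⟮mono x m⟯ ≃ₐ[F0 k x u' m] L := (equivOfEq htop).trans topEquiv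
  let e3 : RatFunc (F0 k x u' m) ≃ₐ[F0 k x u' m] L := e1.trans e2
  have he3 : e3 RatFunc.X = mono x m := by
    change e2 (e1 RatFunc.X) = mono x m
    have : e1 RatFunc.X = AdjoinSimple.gen (F0 k x u' m) (mono x m) := by
      rw [← RatFunc.algebraMap_X]
      change RatFunc.algEquivOfTranscendental (mono x m) ht
        (algebraMap (Polynomial _) (RatFunc _) Polynomial.X) = _
      rw [RatFunc.algEquivOfTranscendental_algebraMap, Polynomial.aeval_X]
    rw [this]
    rfl
  refine ⟨F0 k x u' m, inferInstance, inferInstance,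
    ((e3.symm.restrictScalars k : L ≃ₐ[k] RatFunc (F0 k x u' m)) :
      L →ₐ[k] RatFunc (F0 k x u' m)),
    (IntermediateField.essFiniteType_iff).2 (F0_fg u' m), F0_trdeg hx hgen hm, ?_⟩
  intro w hw v e he hwv hbd
  apply hbd
  have hwv' : ∀ f : L, w.ord (e3.symm f) = e * v.ord f := hwv
  have hc : 0 ≤ w.ord RatFunc.X := by
    rcases hw with h | h
    · exact absurd h RatFunc.X_ne_zero
    · exact h
  have hord : ∀ i, (e : ℤ) * v.ord (x i) = u' i * w.ord RatFunc.X := by
    intro i
    have h1 : x i = mono x (BB u' m i) * (mono x m) ^ u' i := by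
      rw [← mono_zsmul, ← mono_add hx0]
      have : BB u' m i + u' i • m = Pi.single i 1 := by
        change (Pi.single i 1 - u' i • m) + u' i • m = _
        exact sub_add_cancel _ _
      rw [this, mono_single]
    have h2 : mono x (BB u' m i) ∈ F0 k x u' m := by
      unfold F0
      exact IntermediateField.subset_adjoin k _ ⟨i, rfl⟩
    have h3 : e3.symm (x i) =
        algebraMap (F0 k x u' m) _ ⟨mono x (BB u' m i), h2⟩ * RatFunc.X ^ u' i := by
      apply e3.injective
      rw [AlgEquiv.apply_symm_apply, map_mul, map_zpow₀, he3, e3.commutes]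
      exact h1
    have h4 : (⟨mono x (BB u' m i), h2⟩ : F0 k x u' m) ≠ 0 := by
      intro h
      exact mono_ne hx0 _ (congrArg Subtype.val h)
    rw [← hwv', h3, w.ord_mul (by simpa using h4) (zpow_ne_zero _ RatFunc.X_ne_zero),
      w.ord_const h4, w.ord_zpow, zero_add]
  have he' : (0 : ℤ) < e := by exact_mod_cast he
  rcases hc.eq_or_lt with hc | hc
  · have : (fun i => v.ord (x i)) = 0 := by
      funext i
      have h1 := hord i
      rw [← hc, mul_zero] at h1
      exact (mul_eq_zero.1 h1).resolve_left he'.ne'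
    rw [this]
    exact h0
  · rw [← hS e _ he]
    have : (e • fun i => v.ord (x i)) = (w.ord RatFunc.X).toNat • u' := by
      funext i
      rw [Pi.smul_apply, Pi.smul_apply, nsmul_eq_mul, nsmul_eq_mul, hord i, mul_comm]
      congr 1
      rw [Int.natCast_toNat_eq_self.2 hc.le]
    rw [this, hS _ _ (by omega)]
    exact huS

/-- **Quotients of toric varieties.** -/
theorem tfae [IsAlgClosed k] (hx : AlgebraicIndependent k x)
    (hgen : IntermediateField.adjoin k (Set.range x) = ⊤) (G : Subgroup (L ≃ₐ[k] L)) [Finite G]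
    (hG : ∀ g ∈ G, ∀ f ∈ coordRing k x, g f ∈ coordRing k x) {S : Set (Fin n → ℤ)} (h0 : 0 ∈ S)
    (hS : ∀ (m : ℕ) (v : Fin n → ℤ), 0 < m → (m • v ∈ S ↔ v ∈ S)) :
    [Pool.Agent.W619.PL.IsA1Uniruled k (fixedField G) n (TBd G x S),
      ¬ KodGe k (fixedField G) n (TBd G x S) 0, ¬ Psef k (fixedField G) n (TBd G x S),
      (∃ v ∈ S, v ≠ 0) ∨ ∃ g ∈ G, g ≠ 1 ∧ IsRefl x g].TFAE := by
  classical
  have hn := trdeg_L hx hgen
  have hess := ess_L (k := k) (x := x) hgen
  have halgK := Pool.Agent.W721.PG.EFF2.alg_fixed G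
  have hfin := fixed_finite G
  obtain ⟨hnK, z, hz⟩ := Pool.Agent.W721.PG.EFF2.exists_basis (fixedField G) n hn
  have hessK : Algebra.EssFiniteType k (fixedField G) := ess_down hess z hz
  tfae_have 1 → 3 := fun h => Pool.Agent.N145.PL.not_psef_of_a1 hnK h
  tfae_have 3 → 2 := fun h hk => h (psef_of_kodGe hk)
  tfae_have 2 → 4 := by
    intro h
    by_contra hcon
    push Not at hcon
    obtain ⟨h1, h2⟩ := hcon
    apply h
    have h3 : S = {0} := by
      ext v
      rw [Set.mem_singleton_iff]
      exact ⟨fun hv => h1 v hv, fun hv => by rw [hv]; exact h0⟩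
    have h4 : TBd G x S = QBd G x := by
      funext v
      rw [h3]
      exact propext (tBd_zero (x_ne hx) G hG v)
    rw [h4]
    exact kod_ge hx hgen G hG h2
  tfae_have 4 → 1 := by
    rintro (⟨v0, hv0, hne⟩ | ⟨g, hg, hg1, hr⟩)
    · refine Pool.Agent.W619.Y.a1_down n G (TBd G x S) (fun w => (fun i => w.ord (x i)) ∉ S)
        ?_ (a1_toric hx hgen h0 hS hv0 hne)
      rintro w ⟨v, e, hwv, hb⟩
      exact hb w e hwv
    · obtain ⟨M, i1, i2, φ, h1, h2, h3⟩ := a1_of_refl hx hgen G hg hg1 hr
      refine ⟨M, i1, i2, φ, h1, h2, fun w hw v e he hwv hb => h3 w hw v e he hwv ?_⟩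
      rw [← tBd_zero (x_ne hx) G hG v]
      intro w' e' hwv' hv
      refine hb w' e' hwv' ?_
      rw [Set.mem_singleton_iff.1 hv]
      exact h0
  tfae_finish

end

end Pool.Agent.J4.H11.TQ
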