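import Pool.Agent.J4.H11.TQ.Refl

/-! Quotients of tori by groups with reflections are `A¹`-uniruled. -/

set_option autoImplicit false
set_option linter.overlappingInstances false
set_option linter.unusedSectionVars false
set_option maxHeartbeats 4000000
set_option synthInstance.maxHeartbeats 400000

open FF IntermediateField Pool.Agent.W619.PQ Pool.Agent.W603.LV Pool.Agent.R885
  Pool.Agent.W602.GT Polynomial

namespace Pool.Agent.J4.H11.TQ

section

variable {k L : Type} [Field k] [Field L] [Algebra k L]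

/-- The fixed elements of an involution `g` of `F(z)` over `F` with `g z = c / z` are in
`F(z + c / z)`. -/
theorem mem_of_fix {F : IntermediateField k L} {g : L ≃ₐ[k] L} (hgF : ∀ y ∈ F, g y = y) {z : L}
    (htop : F⟮z⟯ = ⊤) (hne : g z ≠ z) (hc : z * g z ∈ F) (hgg : g (g z) = z) {f : L}
    (hf : g f = f) : f ∈ F⟮z + g z⟯ := by
  classical
  set E := F⟮z + g z⟯ with hE
  have htE : z + g z ∈ E := IntermediateField.mem_adjoin_simple_self _ _
  have hFE : ∀ y ∈ F, y ∈ E := fun y hy => IntermediateField.algebraMap_mem E (⟨y, hy⟩ : F)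
  -- `g` is the identity on `E`
  have hgE : ∀ y ∈ E, g y = y := by
    intro y hy
    induction hy using IntermediateField.adjoin_induction with
    | mem y hy =>
      rw [Set.mem_singleton_iff.1 hy, map_add, hgg, add_comm]
    | algebraMap y => exact hgF y y.2
    | add y z _ _ hy hz => rw [map_add, hy, hz]
    | inv y _ hy => rw [map_inv₀, hy]
    | mul y z _ _ hy hz => rw [map_mul, hy, hz]
  let t' : E := ⟨z + g z, htE⟩
  let c' : E := ⟨z * g z, hFE _ hc⟩
  let Q : E[X] := X ^ 2 + C (-t') * X + C c'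
  have hQ : Q.Monic := by
    have h1 : Q = C 1 * X ^ 2 + C (-t') * X + C c' := by rw [C_1, one_mul]
    rw [h1]
    have h2 := Polynomial.leadingCoeff_quadratic (b := -t') (c := c') (one_ne_zero (α := E))
    exact h2
  have hQz : aeval z Q = 0 := by
    simp only [Q, map_add, map_mul, map_pow, aeval_X, aeval_C, map_neg]
    change z ^ 2 + -(z + g z) * z + z * g z = 0
    ring
  have hint : IsIntegral E z := ⟨Q, hQ, by rw [← aeval_def]; exact hQz⟩
  have htopE : E⟮z⟯ = ⊤ := by
    rw [eq_top_iff]
    intro y _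
    have hy : y ∈ F⟮z⟯ := by rw [htop]; exact IntermediateField.mem_top
    induction hy using IntermediateField.adjoin_induction with
    | mem y hy =>
      rw [Set.mem_singleton_iff.1 hy]
      exact IntermediateField.mem_adjoin_simple_self _ _
    | algebraMap y =>
      exact IntermediateField.algebraMap_mem (E⟮z⟯) (⟨y, hFE _ y.2⟩ : E)
    | add y z _ _ hy hz => exact add_mem (hy trivial) (hz trivial)
    | inv y _ hy => exact inv_mem (hy trivial)
    | mul y z _ _ hy hz => exact mul_mem (hy trivial) (hz trivial)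
  have hfE : f ∈ Algebra.adjoin E {z} := by
    rw [← IntermediateField.adjoin_simple_toSubalgebra_of_isAlgebraic hint.isAlgebraic]
    change f ∈ E⟮z⟯
    rw [htopE]
    exact IntermediateField.mem_top
  rw [Algebra.adjoin_singleton_eq_range_aeval] at hfE
  obtain ⟨P, hP⟩ := hfE
  change aeval z P = f at hP
  rw [← Polynomial.aeval_modByMonic_eq_self_of_root hQz] at hP
  have hdeg : (P %ₘ Q).natDegree ≤ 1 := by
    have h1 := Polynomial.natDegree_modByMonic_lt P hQ (by
      intro h
      have h2 := congrArg (fun R : E[X] => R.coeff 2) h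
      simp [Q, Polynomial.coeff_one] at h2)
    have h2 : Q.natDegree = 2 := by
      have h3 : Q = C 1 * X ^ 2 + C (-t') * X + C c' := by rw [C_1, one_mul]
      rw [h3]
      exact Polynomial.natDegree_quadratic (one_ne_zero (α := E))
    omega
  obtain ⟨a, b, hab⟩ := Polynomial.exists_eq_X_add_C_of_natDegree_le_one hdeg
  rw [hab, map_add, map_mul, aeval_C, aeval_C, aeval_X] at hP
  have hP' : (a : L) * z + b = f := hP
  have h1 : g f = (a : L) * g z + b := by
    rw [← hP', map_add, map_mul, hgE a a.2, hgE b b.2]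
  rw [hf, ← hP'] at h1
  have h2 : (a : L) * (g z - z) = 0 := by linear_combination -h1
  have h3 : (a : L) = 0 := (mul_eq_zero.1 h2).resolve_right (sub_ne_zero.2 hne)
  rw [h3, zero_mul, zero_add] at hP'
  rw [← hP']
  exact b.2

/-- Elements which are regular functions on the affine line over `F` are integral. -/
theorem reg_of_coord {n : ℕ} {x : Fin n → L} {F : IntermediateField k L} {z : L} (hz0 : z ≠ 0)
    {g : L ≃ₐ[k] L} (hc : z * g z ∈ F) {u' : Fin n → ℤ} {y : Fin n → L} (hy : ∀ i, y i ∈ F)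
    (hxy : ∀ i, x i = y i * z ^ u' i) (e1 : RatFunc F ≃ₐ[F] F⟮z + g z⟯)
    (he1 : ((e1 RatFunc.X : F⟮z + g z⟯) : L) = z + g z) (w : Place F (RatFunc F))
    (hw : w.Reg RatFunc.X) {r : RatFunc F} (hr : ((e1 r : F⟮z + g z⟯) : L) ∈ coordRing k x) :
    w.Reg r := by
  classical
  let alg1 : Algebra (RatFunc F) L :=
    ((algebraMap (F⟮z + g z⟯) L).comp (e1 : RatFunc F →+* F⟮z + g z⟯)).toAlgebra
  have hmap : ∀ r : RatFunc F, algebraMap (RatFunc F) L r = ((e1 r : F⟮z + g z⟯) : L) :=
    fun _ => rfl
  let alg2 : Algebra w.O L :=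
    ((algebraMap (RatFunc F) L).comp (algebraMap w.O (RatFunc F))).toAlgebra
  have hsc : IsScalarTower w.O (RatFunc F) L := IsScalarTower.of_algebraMap_eq fun _ => rfl
  have himg : ∀ r : RatFunc F, w.Reg r → IsIntegral w.O ((e1 r : F⟮z + g z⟯) : L) := by
    intro r hr
    have h1 : IsIntegral w.O (algebraMap w.O L ⟨r, hr⟩) := isIntegral_algebraMap
    exact h1
  have hF : ∀ c ∈ F, IsIntegral w.O (c : L) := by
    intro c hc
    have h1 := himg (algebraMap F (RatFunc F) ⟨c, hc⟩) (w.reg_const _)
    rw [e1.commutes] at h1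
    exact h1
  have ht : IsIntegral w.O (z + g z) := by
    have h1 := himg RatFunc.X hw
    rw [he1] at h1
    exact h1
  have hz : IsIntegral w.O z := by
    have h1 : w.Reg (algebraMap F (RatFunc F) ⟨z * g z, hc⟩) := w.reg_const _
    let t' : w.O := ⟨RatFunc.X, hw⟩
    let c' : w.O := ⟨algebraMap F (RatFunc F) ⟨z * g z, hc⟩, h1⟩
    have ht' : algebraMap w.O L t' = z + g z := he1
    have hc' : algebraMap w.O L c' = z * g z := by
      change ((e1 (algebraMap F (RatFunc F) ⟨z * g z, hc⟩) : F⟮z + g z⟯) : L) = z * g z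
      rw [e1.commutes]
      rfl
    refine ⟨X ^ 2 + C (-t') * X + C c', ?_, ?_⟩
    · have h2 : X ^ 2 + C (-t') * X + C c' = C 1 * X ^ 2 + C (-t') * X + C c' := by
        rw [C_1, one_mul]
      rw [h2]
      have h3 := Polynomial.leadingCoeff_quadratic (b := -t') (c := c') (one_ne_zero (α := w.O))
      exact h3
    · rw [eval₂_add, eval₂_add, eval₂_mul, eval₂_pow, eval₂_X, eval₂_C, eval₂_C, map_neg, ht', hc']
      ring
  have hgz : IsIntegral w.O (g z) := by
    have h1 := ht.sub hz
    rwa [add_sub_cancel_left] at h1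
  have hgz0 : g z ≠ 0 := by simpa using hz0
  have hzi : IsIntegral w.O z⁻¹ := by
    have h1 := hgz.mul (hF _ (inv_mem hc))
    have h2 : g z * (z * g z)⁻¹ = z⁻¹ := by field_simp
    rwa [h2] at h1
  have hzpow : ∀ m : ℤ, IsIntegral w.O (z ^ m) := by
    intro m
    rcases m with j | j
    · rw [Int.ofNat_eq_natCast, zpow_natCast]
      exact hz.pow j
    · rw [zpow_negSucc, ← inv_pow]
      exact hzi.pow _
  have hcoord : ∀ f ∈ coordRing k x, IsIntegral w.O f := by
    intro f hf
    unfold coordRing at hf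
    induction hf using Algebra.adjoin_induction with
    | mem f hf =>
      rcases hf with ⟨i, rfl⟩ | ⟨i, rfl⟩
      · rw [hxy]
        exact (hF _ (hy i)).mul (hzpow _)
      · change IsIntegral w.O (x i)⁻¹
        rw [hxy, mul_inv, ← zpow_neg]
        exact (hF _ (inv_mem (hy i))).mul (hzpow _)
    | algebraMap c => exact hF _ (F.algebraMap_mem c)
    | add a b _ _ ha hb => exact ha.add hb
    | mul a b _ _ ha hb => exact ha.mul hb
  have h1 : IsIntegral w.O (algebraMap (RatFunc F) L r) := hcoord _ hr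
  rw [isIntegral_algebraMap_iff (algebraMap (RatFunc F) L).injective] at h1
  obtain ⟨s, hs⟩ := IsIntegrallyClosed.isIntegral_iff.1 h1
  rw [← hs]
  exact s.2

/-- **Reflections.** If `G` contains a reflection then the quotient is `A¹`-uniruled. -/
theorem a1_of_refl [CharZero k] {n : ℕ} {x : Fin n → L} (hx : AlgebraicIndependent k x)
    (hgen : IntermediateField.adjoin k (Set.range x) = ⊤) (G : Subgroup (L ≃ₐ[k] L)) [Finite G]
    {g : L ≃ₐ[k] L} (hg : g ∈ G) (hg1 : g ≠ 1) (hr : IsRefl x g) :
    Pool.Agent.W619.PL.IsA1Uniruled k (fixedField G) n (QBd G x) := by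
  classical
  have hx0 := x_ne hx
  have hchL : CharZero L := charZero_of_injective_algebraMap (algebraMap k L).injective
  obtain ⟨a, u, ℓ, ha, hℓ, h⟩ := hr
  have h' : ∀ i, g (x i) = x i * (algebraMap k L a * mono x ℓ) ^ u i := h
  have ha' : algebraMap k L a ≠ 0 := by simpa using ha
  have hN : 0 < orderOf (⟨g, hg⟩ : G) := orderOf_pos _
  have hgN : g ^ orderOf (⟨g, hg⟩ : G) = 1 := by
    have := pow_orderOf_eq_one (⟨g, hg⟩ : G)
    exact congrArg Subtype.val this
  have hlu := refl_data hx hgen hg1 hN hgN ha hℓ h'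
  have hu : u ≠ 0 := by
    rintro rfl
    rw [dotProduct_zero] at hlu
    omega
  obtain ⟨d, u', m, hd, hu', hm⟩ := exists_primitive hu
  have hdot : ∀ v : Fin n → ℤ, v ⬝ᵥ u = d * (v ⬝ᵥ u') := by
    intro v
    have : u = d • u' := by
      funext i
      rw [hu', Pi.smul_apply, smul_eq_mul]
    rw [this, dotProduct_smul, smul_eq_mul]
  set z := mono x m with hz
  have hz0 : z ≠ 0 := mono_ne hx0 m
  set τ := algebraMap k L a * mono x ℓ with hτ
  have hτ0 : τ ≠ 0 := mul_ne_zero ha' (mono_ne hx0 ℓ)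
  -- `g` is trivial on the field of the orthogonal monomials
  have hgF : ∀ y ∈ F0 k x u' m, g y = y := by
    intro y hy
    unfold F0 at hy
    induction hy using IntermediateField.adjoin_induction with
    | mem y hy =>
      obtain ⟨i, rfl⟩ := hy
      change g (mono x (BB u' m i)) = mono x (BB u' m i)
      rw [refl_mono hx0 ha h', hdot]
      have h1 : BB u' m i ⬝ᵥ u' = 0 := by
        change (Pi.single i 1 - u' i • m) ⬝ᵥ u' = 0
        rw [sub_dotProduct, smul_dotProduct, hm, single_one_dotProduct]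
        simp
      rw [h1, mul_zero, zpow_zero, mul_one]
    | algebraMap y => exact g.commutes y
    | add y z _ _ hy hz => rw [map_add, hy, hz]
    | inv y _ hy => rw [map_inv₀, hy]
    | mul y z _ _ hy hz => rw [map_mul, hy, hz]
  have hgz : g z = z * τ ^ d := by
    rw [hz, refl_mono hx0 ha h', hdot, hm, mul_one]
  have hgz0 : g z ≠ 0 := by simpa using hz0
  have hc : z * g z ∈ F0 k x u' m := by
    have h1 : z * g z = algebraMap k L (a ^ d) * mono x (m + m + d • ℓ) := by
      rw [hgz, hτ, mul_zpow, mono_add hx0, mono_add hx0, mono_zsmul, map_zpow₀]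
      ring
    rw [h1]
    refine mul_mem ((F0 k x u' m).algebraMap_mem _) (mono_mem_F0 hx0 u' m ?_)
    rw [add_dotProduct, add_dotProduct, smul_dotProduct, hm, smul_eq_mul, ← hdot, hlu]
    norm_num
  have hgg : g (g z) = z := by
    have h1 := hgF _ hc
    rw [map_mul, mul_comm z (g z)] at h1
    exact mul_left_cancel₀ hgz0 h1
  obtain ⟨δ, hδ⟩ := exists_delta hx hgen u'
  have hδz : δ z = z := by rw [hz, hδ, hm, Int.cast_one, one_mul]
  have hδg : δ (g z) = - g z := by
    have h1 : δ (z * g z) = 0 := F0_consts hm hδ hc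
    rw [δ.leibniz, hδz, smul_eq_mul, smul_eq_mul] at h1
    have h2 : z * (δ (g z) + g z) = 0 := by linear_combination h1
    exact eq_neg_of_add_eq_zero_left ((mul_eq_zero.1 h2).resolve_left hz0)
  have hne : g z ≠ z := by
    intro h0
    rw [h0, hδz] at hδg
    have h2 : (2 : L) * z = 0 := by linear_combination hδg
    rcases mul_eq_zero.1 h2 with h3 | h3
    · exact two_ne_zero h3
    · exact hz0 h3
  have htop := F0_top (k := k) hx0 hgen u' m
  have ht : Transcendental (F0 k x u' m) (z + g z) := by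
    refine F0_trans hm hδ ?_
    rw [map_add, hδz, hδg, ← sub_eq_add_neg]
    exact sub_ne_zero.2 (Ne.symm hne)
  have hmem : ∀ f : fixedField G, (f : L) ∈ (F0 k x u' m)⟮z + g z⟯ := fun f =>
    mem_of_fix hgF htop hne hc hgg (f.2 ⟨g, hg⟩)
  let e1 : RatFunc (F0 k x u' m) ≃ₐ[F0 k x u' m] (F0 k x u' m)⟮z + g z⟯ :=
    RatFunc.algEquivOfTranscendental (z + g z) ht
  have he1 : ((e1 RatFunc.X : (F0 k x u' m)⟮z + g z⟯) : L) = z + g z := by
    have h1 : e1 RatFunc.X = AdjoinSimple.gen (F0 k x u' m) (z + g z) := by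
      rw [← RatFunc.algebraMap_X]
      change RatFunc.algEquivOfTranscendental (z + g z) ht
        (algebraMap (Polynomial _) (RatFunc _) Polynomial.X) = _
      rw [RatFunc.algEquivOfTranscendental_algebraMap, Polynomial.aeval_X]
    rw [h1]
    rfl
  let i0 : fixedField G →ₐ[k] (F0 k x u' m)⟮z + g z⟯ :=
    { toFun := fun f => ⟨f, hmem f⟩
      map_one' := rfl
      map_mul' := fun _ _ => rfl
      map_zero' := rfl
      map_add' := fun _ _ => rfl
      commutes' := fun _ => rfl }
  let φ : fixedField G →ₐ[k] RatFunc (F0 k x u' m) :=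
    ((e1.symm.restrictScalars k : (F0 k x u' m)⟮z + g z⟯ ≃ₐ[k] RatFunc (F0 k x u' m)) :
      (F0 k x u' m)⟮z + g z⟯ →ₐ[k] RatFunc (F0 k x u' m)).comp i0
  have hφ : ∀ f : fixedField G, ((e1 (φ f) : (F0 k x u' m)⟮z + g z⟯) : L) = f := by
    intro f
    have h1 : e1 (φ f) = i0 f := e1.apply_symm_apply (i0 f)
    rw [h1]
    rfl
  refine ⟨F0 k x u' m, inferInstance, inferInstance, φ,
    (IntermediateField.essFiniteType_iff).2 (F0_fg u' m), F0_trdeg hx hgen hm, ?_⟩
  intro w hw v e he hwv hbd
  obtain ⟨f, hf, hnf⟩ := hbd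
  apply hnf
  have h1 : w.Reg (φ f) := by
    refine reg_of_coord (x := x) (y := fun i => mono x (BB u' m i)) (u' := u') hz0 hc (fun i => ?_)
      (fun i => ?_) e1 he1 w hw (r := φ f) ?_
    · unfold F0
      exact IntermediateField.subset_adjoin k _ ⟨i, rfl⟩
    · rw [hz, ← mono_zsmul, ← mono_add hx0]
      have : BB u' m i + u' i • m = Pi.single i 1 := by
        change (Pi.single i 1 - u' i • m) + u' i • m = _
        exact sub_add_cancel _ _
      rw [this, mono_single]
    · rw [hφ]
      exact hf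
  by_cases hf0 : f = 0
  · exact Or.inl hf0
  · right
    have h2 : φ f ≠ 0 := by
      intro h0
      exact hf0 ((map_eq_zero φ).1 h0)
    have h3 := (w.reg_iff h2).1 h1
    rw [hwv] at h3
    have : (0 : ℤ) < e := by exact_mod_cast he
    exact nonneg_of_mul_nonneg_right h3 this

end

end Pool.Agent.J4.H11.TQ
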