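import Pool.Agent.R885.Mono

/-! Laurent monomials in algebraically independent elements, and automorphisms which preserve the
ring of Laurent polynomials. -/

set_option autoImplicit false
set_option linter.overlappingInstances false
set_option linter.unusedSectionVars false

open FF Pool.Agent.R885 Matrix

namespace Pool.Agent.J4.H11.TQ

/-- The ring of regular functions on the torus with the coordinates `x`. -/
def coordRing (k : Type) {L : Type} [Field k] [Field L] [Algebra k L] {n : ℕ} (x : Fin n → L) :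
    Subalgebra k L :=
  Algebra.adjoin k (Set.range x ∪ Set.range fun i => (x i)⁻¹)

section

variable {k L : Type} [Field k] [Field L] [Algebra k L] {n : ℕ} {x : Fin n → L}

theorem x_ne (hx : AlgebraicIndependent k x) (i : Fin n) : x i ≠ 0 := by
  intro h
  have h1 : MvPolynomial.aeval x (MvPolynomial.X i : MvPolynomial (Fin n) k) = 0 := by
    rw [MvPolynomial.aeval_X, h]
  exact MvPolynomial.X_ne_zero i (hx.eq_zero_of_aeval_eq_zero _ h1)

theorem mono_nat (x : Fin n → L) (d : Fin n →₀ ℕ) :
    mono x (fun i => (d i : ℤ)) = MvPolynomial.aeval x (MvPolynomial.monomial d (1 : k)) := by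
  rw [MvPolynomial.aeval_monomial, map_one, one_mul, Finsupp.prod_fintype _ _ (fun i => pow_zero _)]
  unfold mono
  exact Finset.prod_congr rfl fun i _ => zpow_natCast _ _

theorem mono_li (hx : AlgebraicIndependent k x) (s : Finset (Fin n → ℤ))
    (g : (Fin n → ℤ) → k) (hg : ∑ m ∈ s, g m • mono x m = 0) : ∀ m ∈ s, g m = 0 := by
  classical
  let N : Fin n → ℕ := fun i => ∑ m ∈ s, (m i).natAbs
  have hN : ∀ m ∈ s, ∀ i, 0 ≤ m i + N i := by
    intro m hm i
    have h1 : (m i).natAbs ≤ N i :=
      Finset.single_le_sum (f := fun m : Fin n → ℤ => (m i).natAbs) (fun _ _ => Nat.zero_le _) hm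
    omega
  let t : (Fin n → ℤ) → (Fin n →₀ ℕ) := fun m =>
    Finsupp.equivFunOnFinite.symm fun i => (m i + N i).toNat
  have ht : ∀ m ∈ s, (fun i => ((t m i : ℕ) : ℤ)) = m + fun i => (N i : ℤ) := by
    intro m hm
    funext i
    change (((m i + N i).toNat : ℕ) : ℤ) = m i + N i
    rw [Int.toNat_of_nonneg (hN m hm i)]
  have hinj : ∀ m ∈ s, ∀ m' ∈ s, t m = t m' → m = m' := by
    intro m hm m' hm' h
    have h1 := ht m hm
    rw [h, ht m' hm'] at h1
    exact (add_right_cancel h1).symm
  have h1 : MvPolynomial.aeval x (∑ m ∈ s, MvPolynomial.monomial (t m) (g m)) = 0 := by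
    rw [map_sum]
    have h2 : ∀ m ∈ s, MvPolynomial.aeval x (MvPolynomial.monomial (t m) (g m)) =
        (g m • mono x m) * mono x (fun i => (N i : ℤ)) := by
      intro m hm
      have h3 : MvPolynomial.monomial (t m) (g m) = g m • MvPolynomial.monomial (t m) (1 : k) := by
        rw [MvPolynomial.smul_monomial, smul_eq_mul, mul_one]
      rw [h3, map_smul, ← mono_nat x (t m), ht m hm, mono_add (x_ne hx), smul_mul_assoc]
    rw [Finset.sum_congr rfl h2, ← Finset.sum_mul, hg, zero_mul]
  have h2 := hx.eq_zero_of_aeval_eq_zero _ h1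
  intro m hm
  have h3 := congrArg (MvPolynomial.coeff (t m)) h2
  rw [MvPolynomial.coeff_sum, MvPolynomial.coeff_zero] at h3
  rw [Finset.sum_eq_single m] at h3
  · rw [MvPolynomial.coeff_monomial, if_pos rfl] at h3
    exact h3
  · intro m' hm' hne
    rw [MvPolynomial.coeff_monomial, if_neg fun h => hne (hinj _ hm' _ hm h)]
  · intro h
    exact absurd hm h

/-- Monomials with constant coefficients are determined by the exponents. -/
theorem mono_inj (hx : AlgebraicIndependent k x) {c c' : k} {m m' : Fin n → ℤ} (hc : c ≠ 0)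
    (h : algebraMap k L c * mono x m = algebraMap k L c' * mono x m') : m = m' ∧ c = c' := by
  classical
  have hm : m = m' := by
    by_contra hne
    have h1 := mono_li hx {m, m'} (fun l => if l = m then c else -c') (by
      rw [Finset.sum_pair hne, if_pos rfl, if_neg (Ne.symm hne), Algebra.smul_def,
        Algebra.smul_def, h, map_neg]
      ring) m (by simp)
    rw [if_pos rfl] at h1
    exact hc h1
  refine ⟨hm, ?_⟩
  subst hm
  have h1 : mono x m ≠ 0 := mono_ne (x_ne hx) m
  exact (algebraMap k L).injective (mul_right_cancel₀ h1 h)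

/-- the evaluation of Laurent polynomials -/
noncomputable def lau (hx : ∀ i, x i ≠ 0) : AddMonoidAlgebra k (Fin n → ℤ) →ₐ[k] L :=
  AddMonoidAlgebra.lift k L (Fin n → ℤ)
    { toFun := fun m => mono x m.toAdd
      map_one' := mono_zero x
      map_mul' := fun a b => mono_add hx a.toAdd b.toAdd }

theorem lau_single (hx : ∀ i, x i ≠ 0) (m : Fin n → ℤ) (c : k) :
    lau hx (AddMonoidAlgebra.single m c) = algebraMap k L c * mono x m := by
  unfold lau
  rw [AddMonoidAlgebra.lift_single, Algebra.smul_def]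
  rfl

theorem lau_inj (hx : AlgebraicIndependent k x) : Function.Injective (lau (k := k) (x_ne hx)) := by
  classical
  rw [injective_iff_map_eq_zero]
  intro f hf
  unfold lau at hf
  rw [AddMonoidAlgebra.lift_apply, Finsupp.sum] at hf
  have h1 := mono_li hx f.coeff.support (fun m => f.coeff m) hf
  have h2 : f.coeff = 0 := by
    ext m
    by_cases hm : m ∈ f.coeff.support
    · exact h1 m hm
    · exact Finsupp.notMem_support_iff.1 hm
  exact AddMonoidAlgebra.coeff_eq_zero.1 h2

theorem lau_range (hx : ∀ i, x i ≠ 0) : (lau (k := k) hx).range = coordRing k x := by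
  classical
  apply le_antisymm
  · rintro _ ⟨f, rfl⟩
    change lau hx f ∈ _
    unfold lau
    rw [AddMonoidAlgebra.lift_apply, Finsupp.sum]
    refine sum_mem fun m _ => Subalgebra.smul_mem _ ?_ _
    change ∏ i, x i ^ m i ∈ _
    refine prod_mem fun i _ => ?_
    have h1 : x i ∈ coordRing k x := Algebra.subset_adjoin (Or.inl ⟨i, rfl⟩)
    have h2 : (x i)⁻¹ ∈ coordRing k x := Algebra.subset_adjoin (Or.inr ⟨i, rfl⟩)
    rcases m i with a | a
    · rw [Int.ofNat_eq_natCast, zpow_natCast]
      exact pow_mem h1 a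
    · rw [zpow_negSucc, ← inv_pow]
      exact pow_mem h2 _
  · refine Algebra.adjoin_le ?_
    rintro _ (⟨i, rfl⟩ | ⟨i, rfl⟩)
    · refine ⟨AddMonoidAlgebra.single (Pi.single i 1) 1, ?_⟩
      change lau hx _ = _
      rw [lau_single, map_one, one_mul, mono_single]
    · refine ⟨AddMonoidAlgebra.single (-Pi.single i 1) 1, ?_⟩
      change lau hx _ = _
      rw [lau_single, map_one, one_mul, mono_neg, mono_single]

/-- The invertible Laurent polynomials are the monomials. -/
theorem unit_single {f h : AddMonoidAlgebra k (Fin n → ℤ)} (hfh : f * h = 1) :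
    ∃ (m : Fin n → ℤ) (c : k), c ≠ 0 ∧ f = AddMonoidAlgebra.single m c := by
  classical
  have hf0 : f ≠ 0 := by
    rintro rfl
    rw [zero_mul] at hfh
    exact zero_ne_one hfh
  have hh0 : h ≠ 0 := by
    rintro rfl
    rw [mul_zero] at hfh
    exact zero_ne_one hfh
  have hfc : 0 < f.coeff.support.card := by
    rw [Finset.card_pos, Finsupp.support_nonempty_iff]
    exact fun h => hf0 (AddMonoidAlgebra.coeff_eq_zero.1 h)
  have hhc : 0 < h.coeff.support.card := by
    rw [Finset.card_pos, Finsupp.support_nonempty_iff]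
    exact fun h => hh0 (AddMonoidAlgebra.coeff_eq_zero.1 h)
  have hone : ∀ a b : Fin n → ℤ, (f * h).coeff a ≠ 0 → (f * h).coeff b ≠ 0 → a = b := by
    intro a b ha hb
    rw [hfh, AddMonoidAlgebra.one_def, AddMonoidAlgebra.coeff_single] at ha hb
    have ha' : a = 0 := by
      by_contra hne
      exact ha (Finsupp.single_eq_of_ne hne)
    have hb' : b = 0 := by
      by_contra hne
      exact hb (Finsupp.single_eq_of_ne hne)
    rw [ha', hb']
  have hcard : f.coeff.support.card * h.coeff.support.card ≤ 1 := by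
    by_contra hlt
    push Not at hlt
    obtain ⟨p, hp, q, hq, hpq, h1, h2⟩ := TwoUniqueSums.uniqueAdd_of_one_lt_card hlt
    rw [Finset.mem_product] at hp hq
    have e1 := AddMonoidAlgebra.coeff_mul_add_of_uniqueAdd h1
    have e2 := AddMonoidAlgebra.coeff_mul_add_of_uniqueAdd h2
    have n1 : (f * h).coeff (p.1 + p.2) ≠ 0 := by
      rw [e1]
      exact mul_ne_zero (Finsupp.mem_support_iff.1 hp.1) (Finsupp.mem_support_iff.1 hp.2)
    have n2 : (f * h).coeff (q.1 + q.2) ≠ 0 := by
      rw [e2]
      exact mul_ne_zero (Finsupp.mem_support_iff.1 hq.1) (Finsupp.mem_support_iff.1 hq.2)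
    have h3 := hone _ _ n1 n2
    have h4 := h1 hq.1 hq.2 h3.symm
    exact hpq (Prod.ext h4.1.symm h4.2.symm)
  have hf1 : f.coeff.support.card = 1 := by nlinarith
  obtain ⟨m, hm⟩ := Finset.card_eq_one.1 hf1
  refine ⟨m, f.coeff m, ?_, ?_⟩
  · have : m ∈ f.coeff.support := by rw [hm]; exact Finset.mem_singleton_self m
    exact Finsupp.mem_support_iff.1 this
  · apply AddMonoidAlgebra.coeff_injective
    ext m'
    rw [AddMonoidAlgebra.coeff_single]
    by_cases h : m' = m
    · rw [h, Finsupp.single_eq_same]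
    · rw [Finsupp.single_eq_of_ne h]
      apply Finsupp.notMem_support_iff.1
      rw [hm, Finset.mem_singleton]
      exact h

/-- An automorphism which preserves the ring of Laurent polynomials is given by monomials. -/
theorem exists_act (hx : AlgebraicIndependent k x) (g : L ≃ₐ[k] L)
    (hg : ∀ f ∈ coordRing k x, g f ∈ coordRing k x) :
    ∃ (c : Fin n → k) (A : Matrix (Fin n) (Fin n) ℤ), (∀ i, c i ≠ 0) ∧
      ∀ i, g (x i) = algebraMap k L (c i) * mono x (A i) := by
  have h : ∀ i, ∃ (c : k) (m : Fin n → ℤ), c ≠ 0 ∧ g (x i) = algebraMap k L c * mono x m := by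
    intro i
    have h1 := hg (x i) (Algebra.subset_adjoin (Or.inl ⟨i, rfl⟩))
    have h2 := hg (x i)⁻¹ (Algebra.subset_adjoin (Or.inr ⟨i, rfl⟩))
    rw [← lau_range (x_ne hx)] at h1 h2
    obtain ⟨f, hf⟩ := h1
    obtain ⟨h, hh⟩ := h2
    have hfh : f * h = 1 := by
      apply lau_inj hx
      rw [map_mul, map_one]
      change lau (x_ne hx) f = g (x i) at hf
      change lau (x_ne hx) h = g (x i)⁻¹ at hh
      rw [hf, hh, ← map_mul, mul_inv_cancel₀ (x_ne hx i), map_one]
    obtain ⟨m, c, hc, rfl⟩ := unit_single hfh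
    refine ⟨c, m, hc, ?_⟩
    rw [← lau_single (x_ne hx)]
    exact hf.symm
  choose c A hc hA using h
  exact ⟨c, A, hc, hA⟩

theorem mono_vecMul (x : Fin n → L) (hx : ∀ i, x i ≠ 0) (A : Matrix (Fin n) (Fin n) ℤ)
    (m : Fin n → ℤ) : mono (fun i => mono x (A i)) m = mono x (m ᵥ* A) := by
  classical
  have h : ∀ s : Finset (Fin n), ∏ i ∈ s, mono x (A i) ^ m i = mono x (∑ i ∈ s, m i • A i) := by
    intro s
    induction s using Finset.induction_on with
    | empty => rw [Finset.prod_empty, Finset.sum_empty, mono_zero]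
    | insert a s ha ih =>
      rw [Finset.prod_insert ha, Finset.sum_insert ha, mono_add hx, mono_zsmul, ih]
  unfold mono at h ⊢
  rw [h Finset.univ]
  refine Finset.prod_congr rfl fun j _ => ?_
  congr 1
  rw [Finset.sum_apply]
  rfl

/-- The action on monomials. -/
theorem act_mono (hx : ∀ i, x i ≠ 0) {g : L ≃ₐ[k] L} {c : Fin n → k}
    {A : Matrix (Fin n) (Fin n) ℤ} (h : ∀ i, g (x i) = algebraMap k L (c i) * mono x (A i))
    (m : Fin n → ℤ) : g (mono x m) = algebraMap k L (mono c m) * mono x (m ᵥ* A) := by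
  have h1 := map_mono (g : L →+* L) x m
  change g (mono x m) = mono (fun i => g (x i)) m at h1
  rw [h1]
  simp only [h]
  rw [mono_mul (fun i => algebraMap k L (c i)) (fun i => mono x (A i)) m, mono_vecMul x hx,
    map_mono (algebraMap k L)]

/-- The powers of the automorphism. -/
theorem act_pow (hx : ∀ i, x i ≠ 0) {g : L ≃ₐ[k] L} {c : Fin n → k}
    {A : Matrix (Fin n) (Fin n) ℤ} (hc : ∀ i, c i ≠ 0)
    (h : ∀ i, g (x i) = algebraMap k L (c i) * mono x (A i)) (j : ℕ) :
    ∃ c' : Fin n → k, (∀ i, c' i ≠ 0) ∧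
      ∀ i, (g ^ j) (x i) = algebraMap k L (c' i) * mono x ((A ^ j) i) := by
  induction j with
  | zero =>
    refine ⟨fun _ => 1, fun _ => one_ne_zero, fun i => ?_⟩
    rw [pow_zero, pow_zero, map_one, one_mul]
    have h1 : (1 : Matrix (Fin n) (Fin n) ℤ) i = Pi.single i 1 := by
      ext j
      rw [Matrix.one_apply, Pi.single_apply]
      simp only [eq_comm]
    rw [h1, mono_single]
    rfl
  | succ j ih =>
    obtain ⟨c', hc', h'⟩ := ih
    refine ⟨fun i => c' i * mono c ((A ^ j) i), fun i =>
      mul_ne_zero (hc' i) (mono_ne hc _), fun i => ?_⟩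
    have h1 : (g ^ (j + 1)) (x i) = g ((g ^ j) (x i)) := by rw [pow_succ']; rfl
    have h2 : (A ^ (j + 1)) i = (A ^ j) i ᵥ* A := by
      rw [pow_succ]
      rfl
    rw [h1, h', map_mul, AlgEquiv.commutes, act_mono hx h, h2, map_mul, mul_assoc]

theorem act_finite (hx : AlgebraicIndependent k x) {g : L ≃ₐ[k] L} {c : Fin n → k}
    {A : Matrix (Fin n) (Fin n) ℤ} (hc : ∀ i, c i ≠ 0)
    (h : ∀ i, g (x i) = algebraMap k L (c i) * mono x (A i)) {e : ℕ} (he : g ^ e = 1) :
    A ^ e = 1 := by
  obtain ⟨c', hc', h'⟩ := act_pow (x_ne hx) hc h e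
  ext i j
  have h1 := h' i
  rw [he] at h1
  change x i = _ at h1
  have h2 : algebraMap k L (1 : k) * mono x (Pi.single i 1) =
      algebraMap k L (c' i) * mono x ((A ^ e) i) := by
    rw [map_one, one_mul, mono_single]
    exact h1
  have h3 := (mono_inj hx one_ne_zero h2).1
  rw [← h3, Matrix.one_apply, Pi.single_apply]
  simp only [eq_comm]

end

end Pool.Agent.J4.H11.TQ
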