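import Pool.Agent.J4.H11.TQ.Est
import Pool.Agent.J4.H11.TQ.Mon
import Pool.Agent.W619.Y.Parts

/-! The boundary of the quotient of a torus by a finite group, and inert automorphisms. -/

set_option autoImplicit false
set_option linter.overlappingInstances false
set_option linter.unusedSectionVars false

open FF IntermediateField Pool.Agent.W619.PQ Pool.Agent.W603.LV Pool.Agent.R885 Polynomial

namespace Pool.Agent.J4.H11.TQ

section

variable {k L : Type} [Field k] [Field L] [Algebra k L] {n : ℕ}

/-- The places of the function field of the quotient of the torus by `G` which have no centre on the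
quotient: some regular function on the quotient has a pole. -/
def QBd (G : Subgroup (L ≃ₐ[k] L)) (x : Fin n → L) (v : Place k (fixedField G)) : Prop :=
  ∃ f : fixedField G, (f : L) ∈ coordRing k x ∧ ¬ v.Reg f

/-- The automorphism `g` is a reflection: it fixes all points of the hypersurface `a x ^ ℓ = 1`. -/
def IsRefl (x : Fin n → L) (g : L ≃ₐ[k] L) : Prop :=
  ∃ (a : k) (u ℓ : Fin n → ℤ), a ≠ 0 ∧ ℓ ≠ 0 ∧
    ∀ i, g (x i) = x i * (algebraMap k L a * ∏ j, x j ^ ℓ j) ^ u i

variable {x : Fin n → L}

theorem basis_x (hx : AlgebraicIndependent k x)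
    (hgen : IntermediateField.adjoin k (Set.range x) = ⊤) : IsTranscendenceBasis k x := by
  rw [hx.isTranscendenceBasis_iff_isAlgebraic]
  refine ⟨fun z => ?_⟩
  have hz : z ∈ IntermediateField.adjoin k (Set.range x) := by rw [hgen]; trivial
  obtain ⟨r, hr, s, hs, rfl⟩ := IntermediateField.mem_adjoin_iff_div.1 hz
  have h1 : IsAlgebraic (Algebra.adjoin k (Set.range x)) r :=
    isAlgebraic_algebraMap (⟨r, hr⟩ : Algebra.adjoin k (Set.range x))
  have h2 : IsAlgebraic (Algebra.adjoin k (Set.range x)) s :=
    isAlgebraic_algebraMap (⟨s, hs⟩ : Algebra.adjoin k (Set.range x))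
  rw [div_eq_mul_inv]
  exact h1.mul h2.inv

theorem reg_over {K : Type} [Field K] [Algebra k K] [Algebra K L] {w : Place k L} {v : Place k K}
    {e : ℕ} (h : Over w v e) {f : K} : w.Reg (algebraMap K L f) ↔ v.Reg f := by
  unfold Place.Reg
  rw [h.2, map_eq_zero]
  have he : (0 : ℤ) < e := by exact_mod_cast h.1
  constructor
  · rintro (h1 | h1)
    · exact Or.inl h1
    · exact Or.inr (pos_of_mul_nonneg_aux he h1)
  · rintro (h1 | h1)
    · exact Or.inl h1
    · exact Or.inr (mul_nonneg he.le h1)
where
  pos_of_mul_nonneg_aux {a b : ℤ} (ha : 0 < a) (h : 0 ≤ a * b) : 0 ≤ b :=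
    nonneg_of_mul_nonneg_right h ha

/-- A root of a monic polynomial with regular coefficients is regular. -/
theorem reg_of_root (w : Place k L) {P : L[X]} (hP : P.Monic) (hc : ∀ i, w.Reg (P.coeff i)) {z : L}
    (hz : P.eval z = 0) : w.Reg z := by
  have hint : IsIntegral w.O z := by
    have hp : (↑P.coeffs : Set L) ⊆ (w.O.toSubring : Set L) := by
      intro c hc'
      obtain ⟨i, -, rfl⟩ := Polynomial.mem_coeffs_iff.1 hc'
      exact hc i
    refine ⟨P.toSubring w.O.toSubring hp, (Polynomial.monic_toSubring _ _ _).2 hP, ?_⟩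
    have h1 : (P.toSubring w.O.toSubring hp).map (algebraMap w.O L) = P :=
      Polynomial.map_toSubring P w.O.toSubring hp
    rw [← Polynomial.eval_map, h1, hz]
  obtain ⟨y, hy⟩ := IsIntegrallyClosed.isIntegral_iff.1 hint
  rw [← hy]
  exact y.2

theorem reg_coord (G : Subgroup (L ≃ₐ[k] L)) [Finite G]
    (hG : ∀ g ∈ G, ∀ f ∈ coordRing k x, g f ∈ coordRing k x) {v : Place k (fixedField G)}
    {w : Place k L} {e : ℕ} (h : Over w v e) (hv : ¬ QBd G x v) {f : L}
    (hf : f ∈ coordRing k x) : w.Reg f := by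
  classical
  have := Fintype.ofFinite G
  let Q : (coordRing k x)[X] := ∏ g : G, (X - C ⟨(g : L ≃ₐ[k] L) f, hG g g.2 f hf⟩)
  let P : L[X] := Q.map (coordRing k x).val.toRingHom
  have hP : P = ∏ g : G, (X - C ((g : L ≃ₐ[k] L) f)) := by
    change Polynomial.map _ (∏ g : G, (X - C _)) = _
    rw [Polynomial.map_prod]
    refine Finset.prod_congr rfl fun g _ => ?_
    rw [Polynomial.map_sub, Polynomial.map_X, Polynomial.map_C]
    rfl
  have hmon : P.Monic := by
    rw [hP]
    exact Polynomial.monic_prod_of_monic _ _ fun g _ => Polynomial.monic_X_sub_C _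
  have hinv : ∀ h ∈ G, ∀ i, h (P.coeff i) = P.coeff i := by
    intro h hh i
    have h1 : P.map (h : L →+* L) = P := by
      rw [hP, Polynomial.map_prod]
      have h2 : ∀ g : G, Polynomial.map (h : L →+* L) (X - C ((g : L ≃ₐ[k] L) f)) =
          X - C (((⟨h, hh⟩ * g : G) : L ≃ₐ[k] L) f) := by
        intro g
        rw [Polynomial.map_sub, Polynomial.map_X, Polynomial.map_C]
        rfl
      simp only [h2]
      exact Fintype.prod_equiv (Equiv.mulLeft (⟨h, hh⟩ : G)) _ _ fun g => rfl
    have h2 := congrArg (fun R : L[X] => R.coeff i) h1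
    simp only [Polynomial.coeff_map] at h2
    exact h2
  refine reg_of_root w hmon (fun i => ?_) (z := f) ?_
  · have h1 : P.coeff i ∈ coordRing k x := by
      change (Q.map (coordRing k x).val.toRingHom).coeff i ∈ _
      rw [Polynomial.coeff_map]
      exact (Q.coeff i).2
    have h2 : P.coeff i ∈ fixedField G := fun g => hinv g g.2 i
    have h3 : v.Reg (⟨P.coeff i, h2⟩ : fixedField G) := by
      by_contra hcon
      exact hv ⟨⟨P.coeff i, h2⟩, h1, hcon⟩
    exact (reg_over (w := w) (v := v) h).2 h3
  · rw [hP, Polynomial.eval_prod]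
    refine Finset.prod_eq_zero (Finset.mem_univ (1 : G)) ?_
    rw [Polynomial.eval_sub, Polynomial.eval_X, Polynomial.eval_C]
    change f - f = 0
    exact sub_self f

theorem ord_x (hx : ∀ i, x i ≠ 0) (G : Subgroup (L ≃ₐ[k] L)) [Finite G]
    (hG : ∀ g ∈ G, ∀ f ∈ coordRing k x, g f ∈ coordRing k x) {v : Place k (fixedField G)}
    {w : Place k L} {e : ℕ} (h : Over w v e) (hv : ¬ QBd G x v) (i : Fin n) :
    w.ord (x i) = 0 := by
  have h1 := reg_coord G hG h hv (f := x i) (Algebra.subset_adjoin (Or.inl ⟨i, rfl⟩))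
  have h2 := reg_coord G hG h hv (f := (x i)⁻¹) (Algebra.subset_adjoin (Or.inr ⟨i, rfl⟩))
  have h3 := (w.reg_iff (hx i)).1 h1
  have h4 := (w.reg_iff (inv_ne_zero (hx i))).1 h2
  rw [w.ord_inv] at h4
  omega

/-- A unit which is algebraic over the constants modulo the maximal ideal is constant modulo the
maximal ideal. -/
theorem exists_const [IsAlgClosed k] (w : Place k L) {τ : L} (hτ : w.Reg τ) {P : k[X]}
    (hP0 : P ≠ 0) (h : Ge w 1 (aeval τ P)) : ∃ b : k, Ge w 1 (τ - algebraMap k L b) := by
  classical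
  have key : ∀ s : Multiset k, Ge w 1 ((s.map fun a => τ - algebraMap k L a).prod) →
      ∃ b : k, Ge w 1 (τ - algebraMap k L b) := by
    intro s
    induction s using Multiset.induction_on with
    | empty =>
      intro h1
      rw [Multiset.map_zero, Multiset.prod_zero] at h1
      rcases h1 with h1 | h1
      · exact absurd h1 one_ne_zero
      · rw [w.ord_one] at h1
        omega
    | cons a s ih =>
      intro h1
      rw [Multiset.map_cons, Multiset.prod_cons] at h1
      by_cases h2 : Ge w 1 (τ - algebraMap k L a)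
      · exact ⟨a, h2⟩
      · apply ih
        have h3 : Ge w 0 (τ - algebraMap k L a) := Ge.sub hτ (Ge.const a)
        have h4 : τ - algebraMap k L a ≠ 0 := fun h => h2 (Or.inl h)
        have h5 : w.ord (τ - algebraMap k L a) = 0 := by
          have h6 := h3.resolve_left h4
          have h7 : ¬ 1 ≤ w.ord (τ - algebraMap k L a) := fun h => h2 (Or.inr h)
          omega
        exact Ge.of_mul' h4 h5 (by rw [add_zero]; exact h1)
  have h1 := (IsAlgClosed.splits P).eq_prod_roots
  rw [h1, map_mul, Polynomial.aeval_C, map_multiset_prod, Multiset.map_map] at h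
  have h2 : (P.roots.map ((aeval τ) ∘ fun a => X - C a)) =
      P.roots.map fun a => τ - algebraMap k L a := by
    refine Multiset.map_congr rfl fun a _ => ?_
    rw [Function.comp_apply, map_sub, Polynomial.aeval_X, Polynomial.aeval_C]
  rw [h2] at h
  have h3 : P.leadingCoeff ≠ 0 := Polynomial.leadingCoeff_ne_zero.2 hP0
  refine key _ (Ge.of_mul' (h := algebraMap k L P.leadingCoeff) (m := 0) (by simpa using h3)
    (w.ord_const h3) (by rw [add_zero]; exact h))

/-- Constants in the maximal ideal are zero. -/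
theorem const_zero (w : Place k L) {c : k} (h : Ge w 1 (algebraMap k L c)) : c = 0 := by
  by_contra hc
  rcases h with h | h
  · exact hc (by simpa using h)
  · rw [w.ord_const hc] at h
    omega

theorem ord_eq_zero_of_congr (w : Place k L) {τ : L} {b : k} (hb : b ≠ 0)
    (h : Ge w 1 (τ - algebraMap k L b)) : τ ≠ 0 ∧ w.ord τ = 0 := by
  have hb' : algebraMap k L b ≠ 0 := by simpa using hb
  rcases h with h | h
  · rw [sub_eq_zero] at h
    rw [h]
    exact ⟨hb', w.ord_const hb⟩
  · by_cases h0 : τ - algebraMap k L b = 0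
    · rw [h0, w.ord_zero] at h
      omega
    · have h1 := w.ord_add_eq hb' h0 (by rw [w.ord_const hb]; omega)
      rw [add_sub_cancel, w.ord_const hb] at h1
      exact h1

theorem zpow_congr (w : Place k L) {τ : L} {b : k} (hb : b ≠ 0)
    (h : Ge w 1 (τ - algebraMap k L b)) (m : ℤ) :
    Ge w 1 (τ ^ m - (algebraMap k L b) ^ m) := by
  obtain ⟨hτ0, hτ⟩ := ord_eq_zero_of_congr w hb h
  have hb' : algebraMap k L b ≠ 0 := by simpa using hb
  have hnat : ∀ j : ℕ, Ge w 1 (τ ^ j - (algebraMap k L b) ^ j) := by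
    intro j
    induction j with
    | zero => rw [pow_zero, pow_zero, sub_self]; exact Ge.zero
    | succ j ih =>
      have e1 : τ ^ (j + 1) - (algebraMap k L b) ^ (j + 1) =
          τ ^ j * (τ - algebraMap k L b) + (τ ^ j - (algebraMap k L b) ^ j) * algebraMap k L b := by
        ring
      rw [e1]
      have h1 : Ge w 0 (τ ^ j) := Or.inr (by rw [w.ord_pow, hτ, mul_zero])
      have h2 := h1.mul h
      have h3 := ih.mul (Ge.const (P := w) b)
      rw [zero_add] at h2
      rw [add_zero] at h3
      exact h2.add h3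
  rcases m with j | j
  · rw [Int.ofNat_eq_natCast, zpow_natCast, zpow_natCast]
    exact hnat j
  · rw [zpow_negSucc, zpow_negSucc]
    have e1 : (τ ^ (j + 1))⁻¹ - (algebraMap k L b ^ (j + 1))⁻¹ =
        (τ ^ (j + 1) - (algebraMap k L b) ^ (j + 1)) *
          (-(τ ^ (j + 1) * (algebraMap k L b) ^ (j + 1))⁻¹) := by
      field_simp
      ring
    rw [e1]
    have h1 : Ge w 0 (-(τ ^ (j + 1) * (algebraMap k L b) ^ (j + 1))⁻¹) := by
      refine Ge.neg (Or.inr ?_)
      rw [w.ord_inv, w.ord_mul (pow_ne_zero _ hτ0) (pow_ne_zero _ hb'), w.ord_pow, w.ord_pow, hτ,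
        w.ord_const hb]
      simp
    have h2 := (hnat (j + 1)).mul h1
    rwa [add_zero] at h2

/-- An inert automorphism of the torus, not the identity, at a place with centre on the torus, is a
reflection or moves a subspace of rank at least two. -/
theorem refl_or_rank [IsAlgClosed k] [CharZero k] (hx : AlgebraicIndependent k x)
    (hgen : IntermediateField.adjoin k (Set.range x) = ⊤) {w : Place k L}
    (hw : ∀ i, w.ord (x i) = 0) {g : L ≃ₐ[k] L} (hg : Inert w g) (hg1 : g ≠ 1) {c : Fin n → k}
    {A : Matrix (Fin n) (Fin n) ℤ} (hc : ∀ i, c i ≠ 0)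
    (h : ∀ i, g (x i) = algebraMap k L (c i) * mono x (A i)) :
    IsRefl x g ∨ 2 ≤ ((A - 1).map (Int.castRingHom L)).rank := by
  classical
  have : CharZero L := charZero_of_injective_algebraMap (algebraMap k L).injective
  by_contra hcon
  push Not at hcon
  obtain ⟨hnr, hr⟩ := hcon
  have hx0 := x_ne hx
  have hrow : ∀ i, (1 : Matrix (Fin n) (Fin n) ℤ) i = Pi.single i 1 := by
    intro i
    ext j
    rw [Matrix.one_apply, Pi.single_apply]
    simp only [eq_comm]
  -- the congruences
  have hcong : ∀ i, Ge w 1 (algebraMap k L (c i) * mono x ((A - 1) i) - 1) := by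
    intro i
    have h1 : Ge w 1 (g (x i) - x i) := hg _ (Or.inr (hw i).ge)
    have h2 : g (x i) - x i = x i * (algebraMap k L (c i) * mono x ((A - 1) i) - 1) := by
      have h3 : (A - 1) i = A i - Pi.single i 1 := by rw [← hrow]; rfl
      rw [h, h3, mono_sub hx0, mono_single]
      have := hx0 i
      field_simp
    rw [h2] at h1
    exact Ge.of_mul' (hx0 i) (hw i) (by rw [add_zero]; exact h1)
  by_cases hA : A - 1 = 0
  · apply hg1
    have h1 : ∀ i, g (x i) = x i := by
      intro i
      have h2 := hcong i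
      rw [hA] at h2
      have h3 : mono x ((0 : Matrix (Fin n) (Fin n) ℤ) i) = 1 := mono_zero x
      rw [h3, mul_one, ← map_one (algebraMap k L), ← map_sub] at h2
      have h4 := sub_eq_zero.1 (const_zero w h2)
      rw [h, h4, map_one, one_mul, sub_eq_zero.1 hA, hrow, mono_single]
    have h2 : (g : L →ₐ[k] L) = AlgHom.id k L := by
      have h3 : ∀ z ∈ IntermediateField.adjoin k (Set.range x), g z = z := by
        intro z hz
        induction hz using IntermediateField.adjoin_induction with
        | mem y hy => obtain ⟨i, rfl⟩ := hy; exact h1 i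
        | algebraMap y => exact g.commutes y
        | add y z _ _ hy hz => rw [map_add, hy, hz]
        | inv y _ hy => rw [map_inv₀, hy]
        | mul y z _ _ hy hz => rw [map_mul, hy, hz]
      ext z
      exact h3 z (by rw [hgen]; trivial)
    ext z
    exact DFunLike.congr_fun h2 z
  obtain ⟨u, ℓ, hu, hℓ, hB⟩ := exists_vecMulVec (A - 1) L hr hA
  obtain ⟨i0, hi0⟩ : ∃ i, u i ≠ 0 := by
    by_contra hcon
    push Not at hcon
    exact hu (funext hcon)
  set τ := mono x ℓ with hτd
  have hτ0 : τ ≠ 0 := mono_ne hx0 ℓ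
  have hτ : w.ord τ = 0 := by
    rw [hτd, ord_mono w hx0]
    have : vec w x = 0 := funext hw
    rw [this, dotProduct_zero]
  have hAu : ∀ i, mono x ((A - 1) i) = τ ^ u i := by
    intro i
    rw [hτd, ← mono_zsmul]
    congr 1
    ext j
    rw [Pi.smul_apply, smul_eq_mul]
    exact hB i j
  simp only [hAu] at hcong
  -- the constant
  obtain ⟨b, hb⟩ : ∃ b : k, Ge w 1 (τ - algebraMap k L b) := by
    have hnat : ∀ (j : ℕ) (c' : k), 0 < j → Ge w 1 (τ ^ j - algebraMap k L c') →
        ∃ b : k, Ge w 1 (τ - algebraMap k L b) := by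
      intro j c' hj h1
      refine exists_const w (Or.inr hτ.ge) (P := X ^ j - C c') ?_ ?_
      · exact Polynomial.X_pow_sub_C_ne_zero hj c'
      · rw [map_sub, map_pow, Polynomial.aeval_X, Polynomial.aeval_C]
        exact h1
    have h1 := hcong i0
    have hci : algebraMap k L (c i0) ≠ 0 := by simpa using hc i0
    rcases hj : u i0 with j | j
    · have hj0 : 0 < j := by
        rcases Nat.eq_zero_or_pos j with h0 | h0
        · rw [h0] at hj; exact absurd hj hi0
        · exact h0
      rw [hj, Int.ofNat_eq_natCast, zpow_natCast] at h1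
      refine hnat j (c i0)⁻¹ hj0 ?_
      have e1 : τ ^ j - algebraMap k L (c i0)⁻¹ =
          algebraMap k L (c i0)⁻¹ * (algebraMap k L (c i0) * τ ^ j - 1) := by
        rw [map_inv₀]
        field_simp
      rw [e1]
      have h2 := (Ge.const (P := w) (c i0)⁻¹).mul h1
      rwa [zero_add] at h2
    · rw [hj, zpow_negSucc] at h1
      refine hnat (j + 1) (c i0) (Nat.succ_pos j) ?_
      have e1 : τ ^ (j + 1) - algebraMap k L (c i0) =
          -(τ ^ (j + 1) * (algebraMap k L (c i0) * (τ ^ (j + 1))⁻¹ - 1)) := by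
        field_simp
        ring
      rw [e1]
      have h2 : Ge w 0 (τ ^ (j + 1)) := Or.inr (by rw [w.ord_pow, hτ, mul_zero])
      have h3 := h2.mul h1
      rw [zero_add] at h3
      exact h3.neg
  have hb0 : b ≠ 0 := by
    rintro rfl
    rw [map_zero, sub_zero] at hb
    rcases hb with hb | hb
    · exact hτ0 hb
    · omega
  have hcb : ∀ i, c i = b⁻¹ ^ u i := by
    intro i
    have h1 := zpow_congr w hb0 hb (u i)
    have h2 := (Ge.const (P := w) (c i)).mul h1
    rw [zero_add] at h2
    have h3 := (hcong i).sub h2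
    have e1 : algebraMap k L (c i) * τ ^ u i - 1 -
        algebraMap k L (c i) * (τ ^ u i - (algebraMap k L b) ^ u i) =
        algebraMap k L (c i * b ^ u i - 1) := by
      rw [map_sub, map_mul, map_zpow₀, map_one]
      ring
    rw [e1] at h3
    have h4 := const_zero w h3
    rw [sub_eq_zero] at h4
    rw [inv_zpow]
    exact eq_inv_of_mul_eq_one_left h4
  apply hnr
  refine ⟨b⁻¹, u, ℓ, inv_ne_zero hb0, hℓ, fun i => ?_⟩
  change g (x i) = x i * (algebraMap k L b⁻¹ * τ) ^ u i
  have h3 : (A - 1) i = A i - Pi.single i 1 := by rw [← hrow]; rfl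
  have h4 : mono x (A i) = x i * τ ^ u i := by
    rw [← hAu, h3, mono_sub hx0, mono_single]
    have := hx0 i
    field_simp
  rw [h, h4, hcb, mul_zpow, map_zpow₀]
  ring

end

end Pool.Agent.J4.H11.TQ
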