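import Pool.Agent.W619.PQ.Ram

/-! Orders of determinants. -/

set_option autoImplicit false
set_option linter.overlappingInstances false
set_option linter.unusedSectionVars false

open FF Pool.Agent.W603.LV Pool.Agent.W619.PQ Matrix

namespace Pool.Agent.J4.H11.TQ

section

variable {k L : Type*} [Field k] [Field L] [Algebra k L]

theorem ge_det_rows {n : ℕ} (w : Place k L) (A : Matrix (Fin n) (Fin n) L) (m : Fin n → ℤ)
    (hA : ∀ i j, Ge w (m i) (A i j)) : Ge w (∑ i, m i) A.det := by
  rw [Matrix.det_apply']
  refine Ge.sum _ _ fun σ _ => ?_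
  have h1 := Ge.prod (P := w) Finset.univ (fun i => A (σ i) i) (fun i => m (σ i))
    fun i _ => hA _ _
  rw [Equiv.sum_comp σ m] at h1
  have h2 : Ge w 0 (((Equiv.Perm.sign σ : ℤˣ) : ℤ) : L) := Ge.intCast _
  have h3 := h2.mul h1
  rw [zero_add] at h3
  exact h3

/-- The determinant of the sum of a matrix of small rank and a divisible matrix. -/
theorem ge_det_add {n : ℕ} (w : Place k L) (e : ℕ) (N0 N1 : Matrix (Fin n) (Fin n) L)
    (h0 : ∀ i j, Ge w 0 (N0 i j)) (h1 : ∀ i j, Ge w e (N1 i j)) (hr : N0.rank + 2 ≤ n) :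
    Ge w (2 * e) (N0 + N1).det := by
  classical
  let P : Finset (Fin n) → Matrix (Fin n) (Fin n) L := fun s =>
    Matrix.of fun i j => if i ∈ s then N0 i j else N1 i j
  have hP : ∀ s i j, P s i j = if i ∈ s then N0 i j else N1 i j := fun _ _ _ => rfl
  have hdet : (N0 + N1).det = ∑ s : Finset (Fin n), Matrix.det (P s) := by
    have h := (Matrix.detRowAlternating (n := Fin n) (R := L)).toMultilinearMap.map_add_univ
      (fun i => N0 i) (fun i => N1 i)
    refine h.trans (Finset.sum_congr rfl fun s _ => ?_)
    change Matrix.det _ = Matrix.det (P s)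
    congr 1
    ext i j
    rw [hP]
    by_cases hi : i ∈ s
    · rw [if_pos hi]
      exact congrFun (Finset.piecewise_eq_of_mem s (fun i => N0 i) (fun i => N1 i) hi) j
    · rw [if_neg hi]
      exact congrFun (Finset.piecewise_eq_of_notMem s (fun i => N0 i) (fun i => N1 i) hi) j
  rw [hdet]
  refine Ge.sum _ _ fun s _ => ?_
  by_cases hs : s.card + 2 ≤ n
  · have h2 : Ge w (∑ i, if i ∈ s then (0 : ℤ) else e) (Matrix.det (P s)) := by
      refine ge_det_rows w _ _ fun i j => ?_
      rw [hP]
      by_cases hi : i ∈ s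
      · rw [if_pos hi, if_pos hi]
        exact h0 i j
      · rw [if_neg hi, if_neg hi]
        exact h1 i j
    refine h2.mono ?_
    rw [Finset.sum_ite, Finset.sum_const_zero, zero_add, Finset.sum_const, nsmul_eq_mul]
    have h3 : 2 ≤ (Finset.univ.filter fun i => i ∉ s).card := by
      have h4 : (Finset.univ.filter fun i => i ∉ s) = sᶜ := by
        ext i; simp
      rw [h4, Finset.card_compl, Fintype.card_fin]
      omega
    have h5 : (2 : ℤ) ≤ ((Finset.univ.filter fun i => i ∉ s).card : ℤ) := by exact_mod_cast h3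
    have h6 : (0 : ℤ) ≤ e := by positivity
    exact mul_le_mul_of_nonneg_right h5 h6
  · left
    by_contra hne
    have hu : IsUnit (P s) :=
      (Matrix.isUnit_iff_isUnit_det _).2 (isUnit_iff_ne_zero.2 hne)
    have hli := Matrix.linearIndependent_rows_iff_isUnit.2 hu
    have hli2 : LinearIndependent L (N0.submatrix (Subtype.val : s → Fin n) id).row := by
      have h3 := hli.comp (Subtype.val : s → Fin n) Subtype.val_injective
      have h4 : (N0.submatrix (Subtype.val : s → Fin n) id).row =
          (P s).row ∘ (Subtype.val : s → Fin n) := by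
        funext i j
        change N0 i j = P s i j
        rw [hP, if_pos i.2]
      rw [h4]
      exact h3
    have h5 := hli2.rank_matrix
    have h6 := Matrix.rank_submatrix_le N0 (Subtype.val : s → Fin n) id
    rw [Fintype.card_coe] at h5
    omega

end

/-- An integral matrix of rank at most one is the product of a column and a row. -/
theorem exists_vecMulVec {n : ℕ} (B : Matrix (Fin n) (Fin n) ℤ) (R : Type*) [Field R] [CharZero R]
    (hr : (B.map (Int.castRingHom R)).rank < 2) (hB : B ≠ 0) :
    ∃ u ℓ : Fin n → ℤ, u ≠ 0 ∧ ℓ ≠ 0 ∧ ∀ i j, B i j = u i * ℓ j := by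
  classical
  -- the minors vanish
  have hm : ∀ i i' j j', B i j * B i' j' = B i j' * B i' j := by
    intro i i' j j'
    by_contra hne
    have hii : i ≠ i' := by
      rintro rfl
      exact hne (mul_comm _ _)
    have h1 : ((B.map (Int.castRingHom R)).submatrix ![i, i'] ![j, j']).det ≠ 0 := by
      rw [Matrix.det_fin_two]
      simp only [Matrix.submatrix_apply, Matrix.map_apply, Matrix.cons_val_zero,
        Matrix.cons_val_one, Matrix.cons_val_fin_one, eq_intCast]
      intro h
      apply hne
      have h2 : ((B i j * B i' j' : ℤ) : R) = ((B i j' * B i' j : ℤ) : R) := by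
        push_cast
        linear_combination h
      exact_mod_cast h2
    have h2 := Matrix.rank_of_det_ne_zero h1
    have h3 := Matrix.rank_submatrix_le (B.map (Int.castRingHom R)) ![i, i'] ![j, j']
    rw [h2, Fintype.card_fin] at h3
    omega
  obtain ⟨i0, j0, h0⟩ : ∃ i j, B i j ≠ 0 := by
    by_contra hcon
    push Not at hcon
    exact hB (Matrix.ext hcon)
  -- divide the row by its content
  obtain ⟨d, hd⟩ : ∃ d : ℤ, Ideal.span (Set.range (B i0)) = Ideal.span {d} :=
    ⟨_, (Submodule.IsPrincipal.span_singleton_generator _).symm⟩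
  have hdiv : ∀ j, d ∣ B i0 j := by
    intro j
    rw [← Ideal.mem_span_singleton, ← hd]
    exact Ideal.subset_span ⟨j, rfl⟩
  choose ℓ hℓ using hdiv
  have hd0 : d ≠ 0 := by
    rintro rfl
    rw [hℓ, zero_mul] at h0
    exact h0 rfl
  obtain ⟨m, hm1⟩ : ∃ m : Fin n → ℤ, ∑ j, m j * B i0 j = d := by
    have h1 : d ∈ Ideal.span (Set.range (B i0)) := by
      rw [hd]; exact Ideal.mem_span_singleton_self d
    rw [Ideal.mem_span_range_iff_exists_fun] at h1
    exact h1
  have hm2 : ∑ j, m j * ℓ j = 1 := by
    apply mul_left_cancel₀ hd0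
    rw [mul_one, Finset.mul_sum]
    refine Eq.trans (Finset.sum_congr rfl fun j _ => ?_) hm1
    rw [hℓ j]
    ring
  have key : ∀ i j l, B i j * ℓ l = B i l * ℓ j := by
    intro i j l
    apply mul_left_cancel₀ hd0
    have h1 := hm i i0 j l
    rw [hℓ, hℓ] at h1
    linear_combination h1
  have hBu : ∀ i j, B i j = (∑ l, m l * B i l) * ℓ j := by
    intro i j
    calc B i j = B i j * ∑ l, m l * ℓ l := by rw [hm2, mul_one]
      _ = ∑ l, m l * (B i j * ℓ l) := by
        rw [Finset.mul_sum]
        exact Finset.sum_congr rfl fun l _ => by ring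
      _ = ∑ l, m l * (B i l * ℓ j) := Finset.sum_congr rfl fun l _ => by rw [key]
      _ = _ := by
        rw [Finset.sum_mul]
        exact Finset.sum_congr rfl fun l _ => by ring
  refine ⟨fun i => ∑ l, m l * B i l, ℓ, ?_, ?_, hBu⟩
  · intro h
    apply h0
    rw [hBu i0 j0]
    have := congrFun h i0
    change ∑ l, m l * B i0 l = 0 at this
    rw [this, zero_mul]
  · intro h
    apply h0
    rw [hℓ, h]
    simp

end Pool.Agent.J4.H11.TQ
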