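import Pool.Agent.J4.H11.TQ.Det

/-! The determinant of a matrix on which an inert automorphism acts by an integral matrix of finite
order. -/

set_option autoImplicit false
set_option linter.overlappingInstances false
set_option linter.unusedSectionVars false

open FF Pool.Agent.W603.LV Pool.Agent.W619.PQ Matrix

namespace Pool.Agent.J4.H11.TQ

section

variable {n : ℕ}

/-- the sum of the powers -/
def SS (A : Matrix (Fin n) (Fin n) ℤ) (e : ℕ) : Matrix (Fin n) (Fin n) ℤ :=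
  ∑ j ∈ Finset.range e, A ^ j

/-- the invariant quadratic form -/
def QQ (A : Matrix (Fin n) (Fin n) ℤ) (e : ℕ) : Matrix (Fin n) (Fin n) ℤ :=
  ∑ j ∈ Finset.range e, (A ^ j)ᵀ * A ^ j

theorem A_SS {A : Matrix (Fin n) (Fin n) ℤ} {e : ℕ} (hA : A ^ e = 1) : A * SS A e = SS A e := by
  have h := mul_geom_sum A e
  rw [hA, sub_self, sub_mul, one_mul, sub_eq_zero] at h
  exact h

theorem SS_A {A : Matrix (Fin n) (Fin n) ℤ} {e : ℕ} (hA : A ^ e = 1) : SS A e * A = SS A e := by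
  have h := geom_sum_mul A e
  rw [hA, sub_self, mul_sub, mul_one, sub_eq_zero] at h
  exact h

theorem QQ_inv {A : Matrix (Fin n) (Fin n) ℤ} {e : ℕ} (hA : A ^ e = 1) :
    Aᵀ * QQ A e * A = QQ A e := by
  unfold QQ
  rw [Finset.mul_sum, Finset.sum_mul]
  have h : ∀ j, Aᵀ * ((A ^ j)ᵀ * A ^ j) * A = (A ^ (j + 1))ᵀ * A ^ (j + 1) := by
    intro j
    rw [pow_succ, Matrix.transpose_mul]
    simp only [Matrix.mul_assoc]
  simp only [h]
  have h1 := Finset.sum_range_succ' (fun j => (A ^ j)ᵀ * A ^ j) e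
  have h2 := Finset.sum_range_succ (fun j => (A ^ j)ᵀ * A ^ j) e
  have h3 : (A ^ e)ᵀ * A ^ e = (A ^ 0)ᵀ * A ^ 0 := by rw [hA, pow_zero]
  rw [h1, h3] at h2
  exact add_right_cancel h2

theorem QQ_det {A : Matrix (Fin n) (Fin n) ℤ} {e : ℕ} (he : 0 < e) : (QQ A e).det ≠ 0 := by
  intro h0
  obtain ⟨v, hv0, hv⟩ := Matrix.exists_mulVec_eq_zero_iff.2 h0
  have h1 : v ⬝ᵥ (QQ A e *ᵥ v) = ∑ j ∈ Finset.range e, (A ^ j *ᵥ v) ⬝ᵥ (A ^ j *ᵥ v) := by
    unfold QQ
    rw [Matrix.sum_mulVec, dotProduct_sum]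
    refine Finset.sum_congr rfl fun j _ => ?_
    rw [← Matrix.mulVec_mulVec, Matrix.dotProduct_mulVec, Matrix.vecMul_transpose]
  rw [hv, dotProduct_zero] at h1
  have h2 : ∀ j ∈ Finset.range e, 0 ≤ (A ^ j *ᵥ v) ⬝ᵥ (A ^ j *ᵥ v) := fun j _ =>
    Finset.sum_nonneg fun i _ => mul_self_nonneg _
  have h3 := (Finset.sum_eq_zero_iff_of_nonneg h2).1 h1.symm 0 (Finset.mem_range.2 he)
  rw [pow_zero, Matrix.one_mulVec] at h3
  exact hv0 (dotProduct_self_eq_zero.1 h3)

theorem SS_Q_S {A : Matrix (Fin n) (Fin n) ℤ} {e : ℕ} (hA : A ^ e = 1) :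
    (SS A e)ᵀ * QQ A e * SS A e = (e : ℤ) • (QQ A e * SS A e) := by
  have h1 : Aᵀ * (QQ A e * SS A e) = QQ A e * SS A e := by
    calc Aᵀ * (QQ A e * SS A e) = Aᵀ * (QQ A e * (A * SS A e)) := by rw [A_SS hA]
      _ = (Aᵀ * QQ A e * A) * SS A e := by simp only [Matrix.mul_assoc]
      _ = _ := by rw [QQ_inv hA]
  have h2 : ∀ j : ℕ, (A ^ j)ᵀ * (QQ A e * SS A e) = QQ A e * SS A e := by
    intro j
    induction j with
    | zero => rw [pow_zero, Matrix.transpose_one, one_mul]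
    | succ j ih => rw [pow_succ', Matrix.transpose_mul, Matrix.mul_assoc, h1, ih]
  have h3 : (SS A e)ᵀ = ∑ j ∈ Finset.range e, (A ^ j)ᵀ := Matrix.transpose_sum _ _
  rw [Matrix.mul_assoc, h3, Finset.sum_mul, Finset.sum_congr rfl fun j _ => h2 j,
    Finset.sum_const, Finset.card_range]
  simp

theorem SQ_S {A : Matrix (Fin n) (Fin n) ℤ} {e : ℕ} (hA : A ^ e = 1) :
    (SS A e)ᵀ * QQ A e * SS A e = (e : ℤ) • ((SS A e)ᵀ * QQ A e) := by
  have h0 : (SS A e)ᵀ * Aᵀ = (SS A e)ᵀ := by rw [← Matrix.transpose_mul, A_SS hA]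
  have h1 : ((SS A e)ᵀ * QQ A e) * A = (SS A e)ᵀ * QQ A e := by
    calc ((SS A e)ᵀ * QQ A e) * A = ((SS A e)ᵀ * Aᵀ) * QQ A e * A := by rw [h0]
      _ = (SS A e)ᵀ * (Aᵀ * QQ A e * A) := by simp only [Matrix.mul_assoc]
      _ = _ := by rw [QQ_inv hA]
  have h2 : ∀ j : ℕ, ((SS A e)ᵀ * QQ A e) * A ^ j = (SS A e)ᵀ * QQ A e := by
    intro j
    induction j with
    | zero => rw [pow_zero, mul_one]
    | succ j ih => rw [pow_succ, ← Matrix.mul_assoc, ih, h1]
  have h3 : ((SS A e)ᵀ * QQ A e) * SS A e =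
      ∑ j ∈ Finset.range e, ((SS A e)ᵀ * QQ A e) * A ^ j := Finset.mul_sum _ _ _
  rw [h3, Finset.sum_congr rfl fun j _ => h2 j, Finset.sum_const, Finset.card_range]
  simp

/-- the decomposition of the quadratic form -/
theorem QQ_split {A : Matrix (Fin n) (Fin n) ℤ} {e : ℕ} (hA : A ^ e = 1) :
    ((e : ℤ) ^ 2) • QQ A e = (SS A e)ᵀ * QQ A e * SS A e +
      ((e : ℤ) • (1 : Matrix (Fin n) (Fin n) ℤ) - SS A e)ᵀ * QQ A e *
        ((e : ℤ) • (1 : Matrix (Fin n) (Fin n) ℤ) - SS A e) := by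
  have h1 := SS_Q_S hA
  have h2 := SQ_S hA
  rw [Matrix.transpose_sub, Matrix.transpose_smul, Matrix.transpose_one]
  simp only [sub_mul, mul_sub, Matrix.smul_mul, Matrix.mul_smul, one_mul, mul_one]
  rw [h1] at h2 ⊢
  rw [← h2, smul_smul, ← sq]
  abel

/-- the complement of the sum of the powers -/
def EE (A : Matrix (Fin n) (Fin n) ℤ) (e : ℕ) : Matrix (Fin n) (Fin n) ℤ :=
  (e : ℤ) • (1 : Matrix (Fin n) (Fin n) ℤ) - SS A e

theorem EE_comm {A : Matrix (Fin n) (Fin n) ℤ} {e : ℕ} (hA : A ^ e = 1) :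
    EE A e * A = A * EE A e := by
  unfold EE
  rw [sub_mul, mul_sub, A_SS hA, SS_A hA, Matrix.smul_mul, Matrix.mul_smul, one_mul, mul_one]

theorem EE_inv {A : Matrix (Fin n) (Fin n) ℤ} {e : ℕ} (hA : A ^ e = 1) :
    Aᵀ * ((EE A e)ᵀ * QQ A e * EE A e) * A = (EE A e)ᵀ * QQ A e * EE A e := by
  have h1 : Aᵀ * (EE A e)ᵀ = (EE A e)ᵀ * Aᵀ := by
    rw [← Matrix.transpose_mul, ← Matrix.transpose_mul, EE_comm hA]
  calc Aᵀ * ((EE A e)ᵀ * QQ A e * EE A e) * A
      = (Aᵀ * (EE A e)ᵀ) * QQ A e * (EE A e * A) := by simp only [Matrix.mul_assoc]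
    _ = (EE A e)ᵀ * (Aᵀ * QQ A e * A) * EE A e := by
      rw [h1, EE_comm hA]; simp only [Matrix.mul_assoc]
    _ = _ := by rw [QQ_inv hA]

theorem EE_eq (A : Matrix (Fin n) (Fin n) ℤ) (e : ℕ) :
    (EE A e)ᵀ = ∑ j ∈ Finset.range e, (1 - (A ^ j)ᵀ) := by
  unfold EE SS
  rw [Matrix.transpose_sub, Matrix.transpose_sum, Matrix.transpose_smul, Matrix.transpose_one,
    Finset.sum_sub_distrib, Finset.sum_const, Finset.card_range]
  simp

end

section

variable {k L : Type*} [Field k] [CharZero k] [Field L] [Algebra k L] {n : ℕ}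

theorem ge_mat_mul {w : Place k L} {a b : ℤ} {X Y : Matrix (Fin n) (Fin n) L}
    (hX : ∀ i j, Ge w a (X i j)) (hY : ∀ i j, Ge w b (Y i j)) (i j : Fin n) :
    Ge w (a + b) ((X * Y) i j) := by
  rw [Matrix.mul_apply]
  exact Ge.sum _ _ fun l _ => (hX i l).mul (hY l j)

theorem ge_mat_int (w : Place k L) (X : Matrix (Fin n) (Fin n) ℤ) (i j : Fin n) :
    Ge w 0 ((Int.castRingHom L).mapMatrix X i j) := by
  have h : (Int.castRingHom L).mapMatrix X i j = ((X i j : ℤ) : L) := rfl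
  rw [h]
  exact Ge.intCast _

theorem ord_int (w : Place k L) {a : ℤ} (ha : a ≠ 0) : w.ord (a : L) = 0 := by
  have h : (a : L) = algebraMap k L (a : k) := by simp
  rw [h]
  exact w.ord_const (by exact_mod_cast ha)

theorem map_mat_int (g : L ≃ₐ[k] L) (X : Matrix (Fin n) (Fin n) ℤ) :
    ((Int.castRingHom L).mapMatrix X).map g = (Int.castRingHom L).mapMatrix X := by
  ext i j
  change g ((X i j : ℤ) : L) = ((X i j : ℤ) : L)
  exact map_intCast g _

/-- **The estimate.** Let `g` be an inert automorphism of order `e` which acts on the matrix `M`, with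
regular entries, by an integral matrix `A` of finite order such that the rank of `A - 1` is at least
two. Then the order of the determinant of `M` is at least `e`. -/
theorem key (w : Place k L) (g : L ≃ₐ[k] L) (hg : Inert w g) (e : ℕ) (he : 0 < e)
    (hz : ∀ z : L, z ≠ 0 → g z = z → (e : ℤ) ∣ w.ord z)
    (A : Matrix (Fin n) (Fin n) ℤ) (hA : A ^ e = 1) (M : Matrix (Fin n) (Fin n) L)
    (hM : M.map g = M * (Int.castRingHom L).mapMatrix Aᵀ)
    (hreg : ∀ i j, Ge w 0 (M i j))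
    (hr : 2 ≤ ((A - 1).map (Int.castRingHom L)).rank) : Ge w e M.det := by
  classical
  have : CharZero L := charZero_of_injective_algebraMap (algebraMap k L).injective
  let c := (Int.castRingHom L).mapMatrix (m := Fin n)
  have hct : ∀ X, c Xᵀ = (c X)ᵀ := fun X => by ext i j; rfl
  have hregT : ∀ i j, Ge w 0 (Mᵀ i j) := fun i j => hreg j i
  -- the action of `g`
  have hact : ∀ X, (M * c X).map g = M * c (Aᵀ * X) := by
    intro X
    rw [Matrix.map_mul, map_mat_int, hM, map_mul, Matrix.mul_assoc]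
  have hMT : Mᵀ.map g = c A * Mᵀ := by
    have h : Mᵀ.map g = (M.map g)ᵀ := by ext i j; rfl
    have h2 : c Aᵀ = (c A)ᵀ := hct A
    rw [h, hM, Matrix.transpose_mul]
    change (c Aᵀ)ᵀ * Mᵀ = _
    rw [h2, Matrix.transpose_transpose]
  have hfix : ∀ X, Aᵀ * X * A = X → ∀ i j, g ((M * c X * Mᵀ) i j) = (M * c X * Mᵀ) i j := by
    intro X hX i j
    have h1 : (M * c X * Mᵀ).map g = M * c X * Mᵀ := by
      rw [Matrix.map_mul, hact, hMT]
      calc M * c (Aᵀ * X) * (c A * Mᵀ) = M * (c (Aᵀ * X) * c A) * Mᵀ := by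
            simp only [Matrix.mul_assoc]
        _ = M * c X * Mᵀ := by rw [← map_mul, hX]
    exact congrFun (congrFun h1 i) j
  -- the powers
  have hpow : ∀ j : ℕ, ∀ i l, Ge w 1 ((M * c (1 - (A ^ j)ᵀ)) i l) := by
    intro j
    induction j with
    | zero =>
      intro i l
      rw [pow_zero, Matrix.transpose_one, sub_self, map_zero, Matrix.mul_zero]
      exact Ge.zero
    | succ j ih =>
      intro i l
      have h1 : M * c (1 - (A ^ (j + 1))ᵀ) = M * c (1 - (A ^ j)ᵀ) -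
          ((M * c (A ^ j)ᵀ).map g - M * c (A ^ j)ᵀ) := by
        rw [hact, pow_succ, Matrix.transpose_mul]
        simp only [map_sub, Matrix.mul_sub]
        abel
      rw [h1]
      have h2 : Ge w 0 ((M * c (A ^ j)ᵀ) i l) := by
        have := ge_mat_mul hreg (ge_mat_int w (A ^ j)ᵀ) i l
        rwa [add_zero] at this
      exact (ih i l).sub (hg _ h2)
  let N0 := M * c ((SS A e)ᵀ * QQ A e * SS A e) * Mᵀ
  let N1 := M * c ((EE A e)ᵀ * QQ A e * EE A e) * Mᵀ
  have hN0 : ∀ i j, Ge w 0 (N0 i j) := by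
    intro i j
    have := ge_mat_mul (ge_mat_mul hreg (ge_mat_int w ((SS A e)ᵀ * QQ A e * SS A e))) hregT i j
    rw [add_zero, add_zero] at this
    exact this
  have hN1 : ∀ i j, Ge w e (N1 i j) := by
    intro i j
    have h1 : Ge w 1 (N1 i j) := by
      have h2 : N1 = (M * c (EE A e)ᵀ) * (c (QQ A e * EE A e) * Mᵀ) := by
        change M * c ((EE A e)ᵀ * QQ A e * EE A e) * Mᵀ = _
        rw [Matrix.mul_assoc (EE A e)ᵀ, map_mul]
        simp only [Matrix.mul_assoc]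
      rw [h2]
      have h3 : ∀ i l, Ge w 1 ((M * c (EE A e)ᵀ) i l) := by
        intro i l
        rw [EE_eq, map_sum, Finset.mul_sum, Matrix.sum_apply]
        exact Ge.sum _ _ fun j _ => hpow j i l
      have := ge_mat_mul h3 (ge_mat_mul (ge_mat_int w (QQ A e * EE A e)) hregT) i j
      rw [add_zero, add_zero] at this
      exact this
    have h2 : g (N1 i j) = N1 i j := hfix _ (EE_inv hA) i j
    by_cases h0 : N1 i j = 0
    · exact Or.inl h0
    · right
      have h3 := hz _ h0 h2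
      have h4 := h1.resolve_left h0
      exact Int.le_of_dvd (by omega) h3
  have hrank : N0.rank + 2 ≤ n := by
    have h1 : N0.rank ≤ (c (SS A e)).rank := by
      have h2 : N0 = (M * c ((SS A e)ᵀ * QQ A e)) * (c (SS A e) * Mᵀ) := by
        change M * c ((SS A e)ᵀ * QQ A e * SS A e) * Mᵀ = _
        rw [map_mul]
        simp only [Matrix.mul_assoc]
      rw [h2]
      exact (Matrix.rank_mul_le_right _ _).trans (Matrix.rank_mul_le_left _ _)
    have h3 : c (A - 1) * c (SS A e) = 0 := by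
      rw [← map_mul, sub_mul, A_SS hA, one_mul, sub_self, map_zero]
    have h4 := Matrix.rank_add_rank_le_card_of_mul_eq_zero h3
    have h5 : (c (A - 1)).rank = ((A - 1).map (Int.castRingHom L)).rank := rfl
    rw [h5, Fintype.card_fin] at h4
    omega
  have hdet := ge_det_add w e N0 N1 hN0 hN1 hrank
  have hsum : N0 + N1 = M * c (((e : ℤ) ^ 2) • QQ A e) * Mᵀ := by
    rw [QQ_split hA, map_add, Matrix.mul_add, Matrix.add_mul]
    rfl
  have he2 : ((((e : ℤ) ^ 2) • QQ A e).det) ≠ 0 := by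
    rw [Matrix.det_smul]
    have : (e : ℤ) ≠ 0 := by exact_mod_cast he.ne'
    exact mul_ne_zero (pow_ne_zero _ (pow_ne_zero _ this)) (QQ_det he)
  rw [hsum, Matrix.det_mul, Matrix.det_mul, Matrix.det_transpose,
    ← RingHom.map_det] at hdet
  by_cases hM0 : M.det = 0
  · exact Or.inl hM0
  right
  have hne : Int.castRingHom L ((((e : ℤ) ^ 2) • QQ A e).det) ≠ 0 := by
    rw [eq_intCast]
    exact_mod_cast he2
  have h1 := hdet.resolve_left (mul_ne_zero (mul_ne_zero hM0 hne) hM0)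
  rw [w.ord_mul (mul_ne_zero hM0 hne) hM0, w.ord_mul hM0 hne, eq_intCast, ord_int w he2] at h1
  omega

end

end Pool.Agent.J4.H11.TQ
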