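import Pool.Agent.J4.H11.TQ.Bd
import Pool.Agent.W602.GT.KDefs

/-! The invariant form on the quotient of a torus. -/

set_option autoImplicit false
set_option linter.overlappingInstances false
set_option linter.unusedSectionVars false

open FF IntermediateField Pool.Agent.W619.PQ Pool.Agent.W603.LV Pool.Agent.R885
  Pool.Agent.W619.Y Pool.Agent.W619.TW Pool.Agent.W602.GT

namespace Pool.Agent.J4.H11.TQ

section

variable {k L : Type} [Field k] [CharZero k] [Field L] [Algebra k L] {n : ℕ} {x : Fin n → L}

theorem fin_adj {K : Type} [Field K] [Algebra k K] (hess : Algebra.EssFiniteType k K)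
    (y : Fin n → K) (hy : IsTranscendenceBasis k y) :
    FiniteDimensional (IntermediateField.adjoin k (Set.range y)) K := by
  set K0 := IntermediateField.adjoin k (Set.range y) with hK0
  have t2 : IsScalarTower k K0 K := inferInstance
  have hess : Algebra.EssFiniteType K0 K := Algebra.EssFiniteType.of_comp k K0 K
  have halg1 : Algebra.IsAlgebraic K0 K := hy.isAlgebraic_field
  obtain ⟨s, hs⟩ := IntermediateField.fg_top K0 K
  have h1 : FiniteDimensional K0 (IntermediateField.adjoin K0 (s : Set K)) :=
    IntermediateField.finiteDimensional_adjoin fun x _ =>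
      (halg1.isAlgebraic x).isIntegral
  rw [hs] at h1
  exact h1.equiv IntermediateField.topEquiv.toLinearEquiv

theorem ess_down {K : Type} [Field K] [Algebra k K] [Algebra K L] [IsScalarTower k K L]
    [FiniteDimensional K L] (hess : Algebra.EssFiniteType k L) (y : Fin n → K)
    (hy : IsTranscendenceBasis k y) : Algebra.EssFiniteType k K := by
  set K0 := IntermediateField.adjoin k (Set.range y) with hK0
  have t2 : IsScalarTower k K0 K := inferInstance
  have hess1 : Algebra.EssFiniteType K0 L := Algebra.EssFiniteType.of_comp k K0 L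
  have halg1 : Algebra.IsAlgebraic K0 K := hy.isAlgebraic_field
  have halg2 : Algebra.IsAlgebraic K0 L := Algebra.IsAlgebraic.trans K0 K L
  obtain ⟨s, hs⟩ := IntermediateField.fg_top K0 L
  have h1 : FiniteDimensional K0 (IntermediateField.adjoin K0 (s : Set L)) :=
    IntermediateField.finiteDimensional_adjoin fun x _ =>
      (halg2.isAlgebraic x).isIntegral
  rw [hs] at h1
  have h2 : FiniteDimensional K0 L := h1.equiv IntermediateField.topEquiv.toLinearEquiv
  have h3 : FiniteDimensional K0 K := FiniteDimensional.left K0 K L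
  have h4 : Algebra.EssFiniteType K0 K := inferInstance
  have h5 : Algebra.EssFiniteType k K0 :=
    IntermediateField.essFiniteType_iff.2
      (IntermediateField.fg_adjoin_of_finite (Set.finite_range y))
  exact Algebra.EssFiniteType.comp k K0 K

theorem ess_L (hgen : IntermediateField.adjoin k (Set.range x) = ⊤) :
    Algebra.EssFiniteType k L := by
  have h1 : (⊤ : IntermediateField k L).FG := by
    rw [← hgen]
    exact IntermediateField.fg_adjoin_of_finite (Set.finite_range x)
  have h2 : Algebra.EssFiniteType k (⊤ : IntermediateField k L) :=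
    IntermediateField.essFiniteType_iff.2 h1
  exact Algebra.EssFiniteType.of_surjective
    (IntermediateField.topEquiv (F := k) (E := L) : (⊤ : IntermediateField k L) →ₐ[k] L)
    IntermediateField.topEquiv.surjective

theorem trdeg_L (hx : AlgebraicIndependent k x)
    (hgen : IntermediateField.adjoin k (Set.range x) = ⊤) : Algebra.trdeg k L = n := by
  have h1 := (basis_x hx hgen).cardinalMk_eq_trdeg
  rw [← h1]
  simp

/-- The logarithmic derivative of a monomial with a constant coefficient. -/
theorem dlog_act (hx0 : ∀ i, x i ≠ 0) (D : Derivation k L L) {c : k} (hc : c ≠ 0)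
    (m : Fin n → ℤ) : D (algebraMap k L c * mono x m) / (algebraMap k L c * mono x m) =
      ∑ l, (m l : L) * (D (x l) / x l) := by
  have hc' : algebraMap k L c ≠ 0 := by simpa using hc
  have h1 := mono_ne hx0 m
  rw [D.leibniz, D.map_algebraMap, smul_zero, add_zero, smul_eq_mul, der_mono D hx0]
  field_simp

theorem det_sq {A : Matrix (Fin n) (Fin n) ℤ} {e : ℕ} (he : 0 < e) (hA : A ^ e = 1) :
    A.det ^ 2 = 1 := by
  have h1 : A.det ^ e = 1 := by rw [← Matrix.det_pow, hA, Matrix.det_one]
  have h2 : IsUnit A.det := IsUnit.of_pow_eq_one h1 he.ne'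
  rcases Int.isUnit_iff.1 h2 with h | h <;> rw [h] <;> rfl

/-- **The invariant form.** If no element of `G` is a reflection then the logarithmic Kodaira
dimension of the quotient of the torus by `G` is at least zero. -/
theorem kod_ge [IsAlgClosed k] (hx : AlgebraicIndependent k x)
    (hgen : IntermediateField.adjoin k (Set.range x) = ⊤) (G : Subgroup (L ≃ₐ[k] L)) [Finite G]
    (hG : ∀ g ∈ G, ∀ f ∈ coordRing k x, g f ∈ coordRing k x)
    (hnr : ∀ g ∈ G, g ≠ 1 → ¬ IsRefl x g) : Pool.Agent.W602.GT.KodGe k (fixedField G) n (QBd G x) 0 := by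
  classical
  have hx0 := x_ne hx
  have hn := trdeg_L hx hgen
  have hess := ess_L (k := k) (x := x) hgen
  have halgK := Pool.Agent.W721.PG.EFF2.alg_fixed G
  have hfin := fixed_finite G
  obtain ⟨hnK, z, hz⟩ := Pool.Agent.W721.PG.EFF2.exists_basis (fixedField G) n hn
  have hessK : Algebra.EssFiniteType k (fixedField G) := ess_down hess z hz
  have hchL : CharZero L := charZero_of_injective_algebraMap (algebraMap k L).injective
  choose ext hext hext2 hext3 using pEXT k (fixedField G) L n hnK
  have hfix : ∀ (g : G) (f : fixedField G), (g : L ≃ₐ[k] L) (algebraMap (fixedField G) L f) =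
      algebraMap (fixedField G) L f := fun g f => f.2 g
  let J : (Fin n → Derivation k (fixedField G) (fixedField G)) → Matrix (Fin n) (Fin n) L :=
    fun D => Matrix.of fun i j => ext (D i) (x j) / x j
  have hJ : ∀ D i j, J D i j = ext (D i) (x j) / x j := fun _ _ _ => rfl
  -- the action on the matrix
  have hJg : ∀ D, ∀ g ∈ G, ∀ (c : Fin n → k) (A : Matrix (Fin n) (Fin n) ℤ), (∀ i, c i ≠ 0) →
      (∀ i, g (x i) = algebraMap k L (c i) * mono x (A i)) →
      (J D).map g = J D * (Int.castRingHom L).mapMatrix A.transpose := by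
    intro D g hg c A hc hA
    ext i j
    rw [Matrix.map_apply, hJ, map_div₀, hext3 (D i) g (fun f => hfix ⟨g, hg⟩ f) (x j), hA j,
      dlog_act hx0 _ (hc j), Matrix.mul_apply]
    refine Finset.sum_congr rfl fun l _ => ?_
    rw [hJ, mul_comm]
    rfl
  have hact : ∀ g ∈ G, ∃ (c : Fin n → k) (A : Matrix (Fin n) (Fin n) ℤ), (∀ i, c i ≠ 0) ∧
      ∀ i, g (x i) = algebraMap k L (c i) * mono x (A i) := fun g hg => exists_act hx g (hG g hg)
  have hinv : ∀ D, ∀ g : G, (g : L ≃ₐ[k] L) ((J D).det ^ 2) = (J D).det ^ 2 := by
    intro D g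
    obtain ⟨c, A, hc, hA⟩ := hact g g.2
    have he : 0 < orderOf g := orderOf_pos g
    have hge : (g : L ≃ₐ[k] L) ^ orderOf g = 1 := by
      have := pow_orderOf_eq_one g
      exact_mod_cast congrArg Subtype.val this
    have h1 := act_finite hx hc hA hge
    have h2 : (g : L ≃ₐ[k] L) (J D).det = ((J D).map (g : L ≃ₐ[k] L)).det := by
      have := RingHom.map_det ((g : L ≃ₐ[k] L) : L →+* L) (J D)
      exact this
    rw [map_pow, h2, hJg D g g.2 c A hc hA, Matrix.det_mul, ← RingHom.map_det,
      Matrix.det_transpose, mul_pow, ← map_pow, det_sq he h1, map_one, mul_one]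
  let ω : (Fin n → Derivation k (fixedField G) (fixedField G)) → fixedField G :=
    fun D => ⟨(J D).det ^ 2, fun g => hinv D g⟩
  have hω : ∀ D, algebraMap (fixedField G) L (ω D) = (J D).det ^ 2 := fun _ => rfl
  -- the pluricanonical form
  have hplu : IsPluri 2 ω := by
    intro X D
    apply Subtype.ext
    have e1 : ∀ i, ext (∑ l, X i l • D l) = ∑ l,
        (X.map (algebraMap (fixedField G) L)) i l • ext (D l) := by
      intro i
      symm
      apply hext2
      intro f
      rw [Pool.Agent.W721.PG.EFF2.der_sum, Pool.Agent.W721.PG.EFF2.der_sum, map_sum]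
      refine Finset.sum_congr rfl fun l _ => ?_
      rw [hext, map_mul]
      rfl
    have e2 : J (fun i => ∑ l, X i l • D l) = X.map (algebraMap (fixedField G) L) * J D := by
      ext i j
      rw [hJ, e1, Pool.Agent.W721.PG.EFF2.der_sum, Matrix.mul_apply, Finset.sum_div]
      refine Finset.sum_congr rfl fun l _ => ?_
      rw [hJ, mul_div_assoc]
    have e3 : (X.map (algebraMap (fixedField G) L)).det = algebraMap (fixedField G) L X.det := by
      rw [RingHom.map_det]
      rfl
    change (J (fun i => ∑ l, X i l • D l)).det ^ 2 =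
      algebraMap (fixedField G) L (X.det ^ 2 * ω D)
    rw [e2, Matrix.det_mul, e3, map_mul, hω, mul_pow, map_pow]
  -- regular entries
  have hreg : ∀ (v : Place k (fixedField G)) (w : Place k L) (e : ℕ), Over w v e → ∀ D,
      (∀ i j, Ge w 0 (J D i j)) → v.Reg (ω D) := by
    intro v w e hwv D h
    rw [← reg_over hwv, hω]
    have h1 := (ge_det w _ h).pow 2
    rw [mul_zero] at h1
    exact h1
  -- logarithmic vector fields
  have hlog : ∀ (v : Place k (fixedField G)) (w : Place k L) (e : ℕ), Over w v e →
      ∀ D : Fin n → Derivation k (fixedField G) (fixedField G), (∀ i, DerLog v (D i)) →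
      ∀ i j, Ge w 0 (J D i j) := by
    intro v w e hwv D h i j
    rw [hJ]
    refine pLOG k (fixedField G) L v w e hwv (ext (D i)) (fun f => ?_) (x j)
    rw [hext, ← map_div₀, reg_over hwv]
    exact h i f
  -- nonzero
  obtain ⟨D1, hD1⟩ := Pool.Agent.W721.PG.EFF2.exists_det (fixedField G) n z hz x
    (basis_x hx hgen) ext hext
  have hne : ω D1 ≠ 0 := by
    intro h0
    have h1 : (J D1).det ^ 2 = 0 := by rw [← hω, h0, map_zero]
    have h2 : J D1 = (Matrix.of fun i j => ext (D1 j) (x i)).transpose *
        Matrix.diagonal fun j => (x j)⁻¹ := by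
      ext i j
      rw [Matrix.mul_diagonal, hJ, div_eq_mul_inv]
      rfl
    rw [h2, Matrix.det_mul, Matrix.det_transpose, Matrix.det_diagonal] at h1
    have h3 := (mul_eq_zero.1 (pow_eq_zero_iff two_ne_zero |>.1 h1)).resolve_left hD1
    obtain ⟨j, -, hj⟩ := Finset.prod_eq_zero_iff.1 h3
    exact inv_ne_zero (hx0 j) hj
  refine ⟨2, two_pos, fun _ => ω, fun _ => ⟨hplu, ?_, ?_⟩, D1, hne, ?_⟩
  · intro v _ D hD
    obtain ⟨w, e, I, hwv, -, -⟩ := exists_inertia G v
    exact hreg v w e hwv D (hlog v w e hwv D hD)
  · intro v hv hbd D hD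
    obtain ⟨w, e, I, hwv, hcard, hI⟩ := exists_inertia G v
    have hord := ord_x hx0 G hG hwv hbd
    by_cases he1 : e = 1
    · apply hreg v w e hwv D
      intro i j
      rw [hJ]
      refine der_unit (v := w) (D := ext (D i)) ?_ (hord j)
      intro f hf
      refine pPRES k (fixedField G) L v w e hwv (ext (D i)) (fun f hf => ?_) (Or.inl he1) f hf
      rw [hext, reg_over hwv]
      exact hD i f hf
    -- the ramified case
    obtain ⟨g, hgI, hgo, hgz⟩ := exists_generator w I hI
    rw [hcard] at hgo hgz
    have hg1 : (g : L ≃ₐ[k] L) ≠ 1 := by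
      intro h
      rw [h, orderOf_one] at hgo
      exact he1 hgo.symm
    obtain ⟨c, A, hc, hA⟩ := hact g g.2
    have hge : (g : L ≃ₐ[k] L) ^ e = 1 := by rw [← hgo]; exact pow_orderOf_eq_one _
    have hAe := act_finite hx hc hA hge
    have hr := (refl_or_rank hx hgen hord (hI g hgI) hg1 hc hA).resolve_left (hnr g g.2 hg1)
    obtain ⟨y, E, i0, hy, hE, hy1, hyr, hpres⟩ := pFRAME k (fixedField G) n hnK
      (fun y hy => fin_adj hessK y hy) v hv
    have hy0 : y i0 ≠ 0 := by
      intro h0
      rw [h0, v.ord_zero] at hy1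
      exact zero_ne_one hy1
    let d : Fin n → fixedField G := fun i => if i = i0 then y i0 else 1
    let F : Fin n → Derivation k (fixedField G) (fixedField G) := fun i => d i • E i
    have hdr : ∀ i, v.Reg (d i) := by
      intro i
      by_cases hi : i = i0
      · simp only [d, if_pos hi]
        exact hyr i0
      · simp only [d, if_neg hi]
        exact v.reg_one
    have hFlog : ∀ i, DerLog v (F i) := by
      intro i
      refine log_of_pres v (F i) (fun f hf => ?_) hy0 hy1 ?_
      · exact v.reg_mul (hdr i) (hpres i f hf)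
      · change v.Reg (d i * E i (y i0) / y i0)
        rw [hE]
        by_cases hi : i = i0
        · rw [if_pos hi, mul_one]
          have : d i = y i0 := if_pos hi
          rw [this, div_self hy0]
          exact v.reg_one
        · rw [if_neg hi, mul_zero, zero_div]
          exact v.reg_zero
    have hF1 := hlog v w e hwv F hFlog
    have hkey := key w (g : L ≃ₐ[k] L) (hI g hgI) e hwv.1 hgz A hAe (J F)
      (hJg F g g.2 c A hc hA) hF1 hr
    -- comparison of the frames
    have hωF : ω F = (y i0) ^ 2 * ω E := by
      have h1 := hplu (Matrix.diagonal d) E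
      have h2 : (fun i => ∑ j, Matrix.diagonal d i j • E j) = F := by
        funext i
        rw [Finset.sum_eq_single i]
        · rw [Matrix.diagonal_apply_eq]
        · intro j _ hj
          rw [Matrix.diagonal_apply_ne _ (Ne.symm hj), zero_smul]
        · intro h
          exact absurd (Finset.mem_univ i) h
      rw [h2, Matrix.det_diagonal] at h1
      rw [h1]
      congr 2
      rw [Finset.prod_eq_single i0]
      · exact if_pos rfl
      · intro j _ hj
        exact if_neg hj
      · intro h
        exact absurd (Finset.mem_univ i0) h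
    have hωE : v.Reg (ω E) := by
      rw [← reg_over hwv]
      have h1 : Ge w (2 * e) (algebraMap (fixedField G) L (ω F)) := by
        rw [hω]
        have := hkey.pow 2
        exact_mod_cast this
      rw [hωF, map_mul, map_pow] at h1
      have h2 : w.ord (algebraMap (fixedField G) L (y i0) ^ 2) = 2 * e := by
        rw [w.ord_pow, hwv.2, hy1]
        push_cast
        ring
      have h3 : Ge w 0 (algebraMap (fixedField G) L (ω E)) :=
        Ge.of_mul' (pow_ne_zero 2 (by simpa using hy0)) h2 (by rw [zero_add]; exact h1)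
      exact h3
    change v.Reg (ω D)
    rw [Pool.Agent.W636.PG.form_eq k (fixedField G) n 2 y hy E hE ω hplu D]
    refine v.reg_mul ?_ hωE
    have h1 : Ge v 0 (Matrix.of fun i j => D i (y j)).det :=
      ge_det v _ fun i j => hD i _ (hyr j)
    have h2 := h1.pow 2
    rw [mul_zero] at h2
    exact h2
  · rw [algebraicIndependent_empty_type_iff]
    exact (algebraMap k (fixedField G)).injective

end

end Pool.Agent.J4.H11.TQ
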