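import Pool.Agent.J4.H11.TQ.Form
import Pool.Agent.W602.GT.KPick
import Pool.Agent.W619.PL.LDefs

/-! Quotients of tori by groups with reflections are `A¹`-uniruled. -/

set_option autoImplicit false
set_option linter.overlappingInstances false
set_option linter.unusedSectionVars false

open FF IntermediateField Pool.Agent.W619.PQ Pool.Agent.W603.LV Pool.Agent.R885
  Pool.Agent.W602.GT Polynomial

namespace Pool.Agent.J4.H11.TQ

section

variable {k L : Type} [Field k] [Field L] [Algebra k L] {n : ℕ} {x : Fin n → L}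

/-- the powers of a nonconstant monomial are different -/
theorem tau_inj (hx : AlgebraicIndependent k x) {a : k} (ha : a ≠ 0) {ℓ : Fin n → ℤ} (hℓ : ℓ ≠ 0)
    {m m' : ℤ} (h : (algebraMap k L a * mono x ℓ) ^ m = (algebraMap k L a * mono x ℓ) ^ m') :
    m = m' := by
  rw [mul_zpow, mul_zpow, ← map_zpow₀, ← map_zpow₀, ← mono_zsmul, ← mono_zsmul] at h
  have h1 := (mono_inj hx (zpow_ne_zero _ ha) h).1
  obtain ⟨i, hi⟩ : ∃ i, ℓ i ≠ 0 := by
    by_contra hcon
    push Not at hcon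
    exact hℓ (funext hcon)
  have h2 := congrFun h1 i
  rw [Pi.smul_apply, Pi.smul_apply, smul_eq_mul, smul_eq_mul] at h2
  exact mul_right_cancel₀ hi h2

/-- the action on monomials -/
theorem refl_mono (hx0 : ∀ i, x i ≠ 0) {g : L ≃ₐ[k] L} {a : k} (ha : a ≠ 0) {u ℓ : Fin n → ℤ}
    (h : ∀ i, g (x i) = x i * (algebraMap k L a * mono x ℓ) ^ u i) (m : Fin n → ℤ) :
    g (mono x m) = mono x m * (algebraMap k L a * mono x ℓ) ^ (m ⬝ᵥ u) := by
  have ha' : algebraMap k L a ≠ 0 := by simpa using ha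
  have h1 := map_mono (g : L →+* L) x m
  change g (mono x m) = mono (fun i => g (x i)) m at h1
  rw [h1]
  simp only [h]
  rw [mono_mul x (fun i => (algebraMap k L a * mono x ℓ) ^ u i) m,
    mono_zpow (mul_ne_zero ha' (mono_ne hx0 ℓ))]

theorem eq_one_of_fix (hgen : IntermediateField.adjoin k (Set.range x) = ⊤) {g : L ≃ₐ[k] L}
    (h : ∀ i, g (x i) = x i) : g = 1 := by
  have h3 : ∀ z ∈ IntermediateField.adjoin k (Set.range x), g z = z := by
    intro z hz
    induction hz using IntermediateField.adjoin_induction with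
    | mem y hy => obtain ⟨i, rfl⟩ := hy; exact h i
    | algebraMap y => exact g.commutes y
    | add y z _ _ hy hz => rw [map_add, hy, hz]
    | inv y _ hy => rw [map_inv₀, hy]
    | mul y z _ _ hy hz => rw [map_mul, hy, hz]
  ext z
  exact h3 z (by rw [hgen]; trivial)

theorem refl_data (hx : AlgebraicIndependent k x)
    (hgen : IntermediateField.adjoin k (Set.range x) = ⊤) {g : L ≃ₐ[k] L} (hg1 : g ≠ 1)
    {N : ℕ} (hN : 0 < N) (hgN : g ^ N = 1) {a : k} (ha : a ≠ 0) {u ℓ : Fin n → ℤ} (hℓ : ℓ ≠ 0)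
    (h : ∀ i, g (x i) = x i * (algebraMap k L a * mono x ℓ) ^ u i) : ℓ ⬝ᵥ u = -2 := by
  have hx0 := x_ne hx
  have ha' : algebraMap k L a ≠ 0 := by simpa using ha
  set τ := algebraMap k L a * mono x ℓ with hτ
  have hτ0 : τ ≠ 0 := mul_ne_zero ha' (mono_ne hx0 ℓ)
  have hgτ : g τ = τ ^ (1 + ℓ ⬝ᵥ u) := by
    rw [zpow_add₀ hτ0, zpow_one]
    conv_lhs => rw [hτ, map_mul, g.commutes, refl_mono hx0 ha h, ← mul_assoc]
  have hpow : ∀ j : ℕ, (g ^ j) τ = τ ^ ((1 + ℓ ⬝ᵥ u) ^ j) := by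
    intro j
    induction j with
    | zero => rw [pow_zero, pow_zero, zpow_one]; rfl
    | succ j ih =>
      have h1 : (g ^ (j + 1)) τ = g ((g ^ j) τ) := by rw [pow_succ']; rfl
      rw [h1, ih, map_zpow₀, hgτ, ← zpow_mul, pow_succ']
  have h1 : (1 + ℓ ⬝ᵥ u) ^ N = 1 := by
    apply tau_inj hx ha hℓ
    rw [← hτ, ← hpow, hgN, zpow_one]
    rfl
  have h2 : IsUnit (1 + ℓ ⬝ᵥ u) := IsUnit.of_pow_eq_one h1 hN.ne'
  rcases Int.isUnit_iff.1 h2 with h3 | h3
  · exfalso
    apply hg1
    apply eq_one_of_fix hgen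
    have h4 : ∀ (j : ℕ) i, (g ^ j) (x i) = x i * τ ^ ((j : ℤ) * u i) := by
      intro j i
      induction j with
      | zero => simp
      | succ j ih =>
        have h1 : (g ^ (j + 1)) (x i) = g ((g ^ j) (x i)) := by rw [pow_succ']; rfl
        rw [h1, ih, map_mul, map_zpow₀, hgτ, h3, zpow_one, h, mul_assoc, ← zpow_add₀ hτ0]
        congr 2
        push_cast
        ring
    intro i
    have h5 := h4 N i
    rw [hgN] at h5
    change x i = _ at h5
    have h6 : τ ^ ((N : ℤ) * u i) = τ ^ (0 : ℤ) := by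
      rw [zpow_zero]
      exact (mul_left_cancel₀ (hx0 i) (by rw [mul_one]; exact h5)).symm
    have h7 := tau_inj hx ha hℓ h6
    have h8 : u i = 0 := by
      rcases mul_eq_zero.1 h7 with h | h
      · exact absurd (by exact_mod_cast h) hN.ne'
      · exact h
    rw [h, h8, zpow_zero, mul_one]
  · linarith

/-- a vector is a multiple of a primitive vector -/
theorem exists_primitive {u : Fin n → ℤ} (hu : u ≠ 0) :
    ∃ (d : ℤ) (u' m : Fin n → ℤ), d ≠ 0 ∧ (∀ i, u i = d * u' i) ∧ m ⬝ᵥ u' = 1 := by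
  obtain ⟨d, hd⟩ : ∃ d : ℤ, Ideal.span (Set.range u) = Ideal.span {d} :=
    ⟨_, (Submodule.IsPrincipal.span_singleton_generator _).symm⟩
  have hdiv : ∀ j, d ∣ u j := by
    intro j
    rw [← Ideal.mem_span_singleton, ← hd]
    exact Ideal.subset_span ⟨j, rfl⟩
  choose u' hu' using hdiv
  have hd0 : d ≠ 0 := by
    rintro rfl
    apply hu
    funext i
    rw [hu', zero_mul]
    rfl
  obtain ⟨m, hm⟩ : ∃ m : Fin n → ℤ, ∑ j, m j * u j = d := by
    have h1 : d ∈ Ideal.span (Set.range u) := by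
      rw [hd]; exact Ideal.mem_span_singleton_self d
    rw [Ideal.mem_span_range_iff_exists_fun] at h1
    exact h1
  refine ⟨d, u', m, hd0, hu', ?_⟩
  apply mul_left_cancel₀ hd0
  rw [mul_one]
  refine Eq.trans ?_ hm
  unfold dotProduct
  rw [Finset.mul_sum]
  refine Finset.sum_congr rfl fun j _ => ?_
  rw [hu' j]
  ring

/-- the differences of the basis vectors and the multiples of `m` -/
def BB (u' m : Fin n → ℤ) : Matrix (Fin n) (Fin n) ℤ := fun i => Pi.single i 1 - u' i • m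

theorem vecMul_BB (u' m v : Fin n → ℤ) : Matrix.vecMul v (BB u' m) = v - (v ⬝ᵥ u') • m := by
  ext j
  rw [Pi.sub_apply, Pi.smul_apply, smul_eq_mul]
  change ∑ i, v i * ((Pi.single i 1 : Fin n → ℤ) - u' i • m) j = _
  have h : ∀ i, v i * ((Pi.single i 1 : Fin n → ℤ) - u' i • m) j =
      (if i = j then v i else 0) - (v i * u' i) * m j := by
    intro i
    rw [Pi.sub_apply, Pi.smul_apply, smul_eq_mul, Pi.single_apply, mul_sub]
    by_cases hij : i = j
    · rw [if_pos hij, if_pos hij.symm]; ring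
    · rw [if_neg hij, if_neg (Ne.symm hij)]; ring
  simp only [h]
  rw [Finset.sum_sub_distrib, Finset.sum_ite_eq' Finset.univ j, if_pos (Finset.mem_univ j),
    ← Finset.sum_mul]
  rfl

/-- the field generated by the monomials which are orthogonal to `u'` -/
def F0 (k : Type) {L : Type} [Field k] [Field L] [Algebra k L] {n : ℕ} (x : Fin n → L)
    (u' m : Fin n → ℤ) : IntermediateField k L :=
  IntermediateField.adjoin k (Set.range fun i => mono x (BB u' m i))

theorem mono_mem_F0 (hx0 : ∀ i, x i ≠ 0) (u' m : Fin n → ℤ) {v : Fin n → ℤ} (hv : v ⬝ᵥ u' = 0) :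
    mono x v ∈ F0 k x u' m := by
  have h1 : mono x v = mono (fun i => mono x (BB u' m i)) v := by
    rw [mono_vecMul x hx0, vecMul_BB, hv, zero_smul, sub_zero]
  rw [h1]
  change ∏ i, _ ∈ _
  refine prod_mem fun i _ => zpow_mem ?_ _
  exact IntermediateField.subset_adjoin _ _ ⟨i, rfl⟩

theorem F0_top (hx0 : ∀ i, x i ≠ 0) (hgen : IntermediateField.adjoin k (Set.range x) = ⊤)
    (u' m : Fin n → ℤ) : (F0 k x u' m)⟮mono x m⟯ = ⊤ := by
  have h1 : IntermediateField.adjoin k (Set.range x) ≤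
      ((F0 k x u' m)⟮mono x m⟯).restrictScalars k := by
    rw [IntermediateField.adjoin_le_iff]
    rintro _ ⟨i, rfl⟩
    have h2 : x i = mono x (BB u' m i) * (mono x m) ^ u' i := by
      rw [← mono_zsmul, ← mono_add hx0]
      have : BB u' m i + u' i • m = Pi.single i 1 := by
        change (Pi.single i 1 - u' i • m) + u' i • m = _
        exact sub_add_cancel _ _
      rw [this, mono_single]
    rw [h2]
    have h4 : mono x (BB u' m i) ∈ F0 k x u' m := by
      unfold F0
      exact IntermediateField.subset_adjoin k _ ⟨i, rfl⟩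
    have h3 := IntermediateField.algebraMap_mem ((F0 k x u' m)⟮mono x m⟯)
      (⟨mono x (BB u' m i), h4⟩ : F0 k x u' m)
    have h5 : mono x m ∈ (F0 k x u' m)⟮mono x m⟯ :=
      IntermediateField.mem_adjoin_simple_self _ _
    exact mul_mem h3 (zpow_mem h5 _)
  rw [hgen] at h1
  rw [eq_top_iff]
  intro z _
  exact h1 (IntermediateField.mem_top (x := z))

theorem F0_fg (u' m : Fin n → ℤ) : (F0 k x u' m).FG :=
  IntermediateField.fg_adjoin_of_finite (Set.finite_range _)

variable [CharZero k]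

theorem exists_delta (hx : AlgebraicIndependent k x)
    (hgen : IntermediateField.adjoin k (Set.range x) = ⊤) (u' : Fin n → ℤ) :
    ∃ δ : Derivation k L L, ∀ v : Fin n → ℤ, δ (mono x v) = ((v ⬝ᵥ u' : ℤ) : L) * mono x v := by
  classical
  have hx0 := x_ne hx
  obtain ⟨E, hE⟩ := Pool.Agent.W636.PG.exists_duals k L n x (basis_x hx hgen)
  refine ⟨∑ j, ((u' j : L) * x j) • E j, fun v => ?_⟩
  rw [der_mono _ hx0, mul_comm]
  congr 1
  have h : ∀ i, (∑ j, ((u' j : L) * x j) • E j) (x i) = (u' i : L) * x i := by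
    intro i
    rw [Pool.Agent.W721.PG.EFF2.der_sum]
    simp only [hE, mul_ite, mul_one, mul_zero, Finset.sum_ite_eq', Finset.mem_univ, if_true]
  simp only [h]
  unfold dotProduct
  push_cast
  refine Finset.sum_congr rfl fun i _ => ?_
  have := hx0 i
  field_simp

theorem F0_consts {δ : Derivation k L L} {u' m : Fin n → ℤ} (hm : m ⬝ᵥ u' = 1)
    (hδ : ∀ v : Fin n → ℤ, δ (mono x v) = ((v ⬝ᵥ u' : ℤ) : L) * mono x v) :
    F0 k x u' m ≤ consts δ := by
  unfold F0
  rw [IntermediateField.adjoin_le_iff]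
  rintro _ ⟨i, rfl⟩
  change δ (mono x (BB u' m i)) = 0
  rw [hδ]
  have h1 : BB u' m i ⬝ᵥ u' = 0 := by
    change (Pi.single i 1 - u' i • m) ⬝ᵥ u' = 0
    rw [sub_dotProduct, smul_dotProduct, hm, single_one_dotProduct]
    simp
  rw [h1]
  simp

theorem alg_map {A B : IntermediateField k L} (h : A ≤ B) {z : L} (hz : IsAlgebraic A z) :
    IsAlgebraic B z := by
  obtain ⟨P, hP0, hP⟩ := hz
  refine ⟨P.map (inclusion h).toRingHom, (Polynomial.map_ne_zero_iff
    (inclusion h).toRingHom.injective).2 hP0, ?_⟩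
  rw [Polynomial.aeval_def, Polynomial.eval₂_map]
  exact hP

theorem F0_trans {δ : Derivation k L L} {u' m : Fin n → ℤ} (hm : m ⬝ᵥ u' = 1)
    (hδ : ∀ v : Fin n → ℤ, δ (mono x v) = ((v ⬝ᵥ u' : ℤ) : L) * mono x v) {z : L} (hz : δ z ≠ 0) :
    Transcendental (F0 k x u' m) z := fun h =>
  hz (der_of_alg δ (alg_map (F0_consts hm hδ) h))

theorem F0_trdeg (hx : AlgebraicIndependent k x)
    (hgen : IntermediateField.adjoin k (Set.range x) = ⊤) {u' m : Fin n → ℤ}
    (hm : m ⬝ᵥ u' = 1) : Algebra.trdeg k (F0 k x u' m) + 1 = n := by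
  obtain ⟨δ, hδ⟩ := exists_delta hx hgen u'
  have ht : Transcendental (F0 k x u' m) (mono x m) := by
    refine F0_trans hm hδ ?_
    rw [hδ, hm, Int.cast_one, one_mul]
    exact mono_ne (x_ne hx) m
  have htop := F0_top (k := k) (x_ne hx) hgen u' m
  have hfin : FiniteDimensional (F0 k x u' m)⟮mono x m⟯ L := by
    refine ⟨⟨{1}, ?_⟩⟩
    rw [eq_top_iff]
    intro z _
    have hz : z ∈ (F0 k x u' m)⟮mono x m⟯ := by rw [htop]; exact IntermediateField.mem_top
    rw [Finset.coe_singleton, Submodule.mem_span_singleton]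
    exact ⟨⟨z, hz⟩, by rw [Algebra.smul_def, mul_one]; rfl⟩
  have hFF : IsFF (F0 k x u' m) L := IsFF.of_finite ht hfin
  have h1 := _root_.trdeg_add_eq k (F0 k x u' m) (A := L)
  rw [hFF.trdeg, trdeg_L hx hgen] at h1
  exact h1

end

end Pool.Agent.J4.H11.TQ
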